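import Mathlib

/-!
# `k`-th powers in `ℤ_p` near `1`
-/

set_option autoImplicit false

namespace Pool.Agent.KS6_15.HP

open Finset

variable {p : ℕ} [hp : Fact p.Prime]

/-- the exponent `γ` such that the elements congruent to `1` modulo `p ^ γ` are `k`-th powers -/
def gam (p k : ℕ) : ℕ := if p ∣ k then (if p = 2 then padicValNat 2 k + 2 else padicValNat p k + 1)
  else 1

lemma root_aux (u a : ℤ_[p]) (n : ℕ) (h : ‖a ^ n - u‖ < ‖(n : ℤ_[p]) * a ^ (n - 1)‖ ^ 2) :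
    ∃ v : ℤ_[p], v ^ n = u ∧ ‖v - a‖ < ‖(n : ℤ_[p]) * a ^ (n - 1)‖ := by
  have := hensels_lemma (p := p) (F := (Polynomial.X ^ n - Polynomial.C u : Polynomial ℤ_[p]))
    (a := a) ?_
  · obtain ⟨z, hz, h1, -⟩ := this
    refine ⟨z, ?_, ?_⟩
    · have : z ^ n - u = 0 := by simpa using hz
      exact sub_eq_zero.1 this
    · have e : (Polynomial.aeval a)
        (Polynomial.derivative (Polynomial.X ^ n - Polynomial.C u : Polynomial ℤ_[p])) =
        (n : ℤ_[p]) * a ^ (n - 1) := by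
        simp [Polynomial.derivative_X_pow]
      rw [e] at h1
      exact h1
  · have e1 : (Polynomial.aeval a)
        (Polynomial.X ^ n - Polynomial.C u : Polynomial ℤ_[p]) = a ^ n - u := by
      rw [map_sub, Polynomial.aeval_C]
      simp
    have e : (Polynomial.aeval a)
        (Polynomial.derivative (Polynomial.X ^ n - Polynomial.C u : Polynomial ℤ_[p])) =
        (n : ℤ_[p]) * a ^ (n - 1) := by
      simp [Polynomial.derivative_X_pow]
    rw [e1, e]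
    exact h

lemma norm_p_lt : ‖(p : ℤ_[p])‖ < 1 := by
  rw [PadicInt.norm_p]
  exact inv_lt_one_of_one_lt₀ (by exact_mod_cast hp.out.one_lt)

lemma isUnit_one_add (x : ℤ_[p]) (m : ℕ) (hm : 1 ≤ m) : IsUnit (1 + (p : ℤ_[p]) ^ m * x) := by
  rw [PadicInt.isUnit_iff]
  have h1 : ‖(p : ℤ_[p]) ^ m * x‖ < 1 := by
    rw [norm_mul, norm_pow]
    have h2 : ‖(p : ℤ_[p])‖ < 1 := norm_p_lt
    have h3 : ‖(p : ℤ_[p])‖ ^ m ≤ ‖(p : ℤ_[p])‖ := pow_le_of_le_one (norm_nonneg _) h2.le (by omega)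
    have h4 := PadicInt.norm_le_one x
    have h5 : 0 ≤ ‖(p : ℤ_[p])‖ ^ m := by positivity
    have h6 : 0 ≤ ‖x‖ := norm_nonneg x
    nlinarith
  have h7 : ‖(1 : ℤ_[p])‖ ≠ ‖(p : ℤ_[p]) ^ m * x‖ := by
    rw [norm_one]; exact (ne_of_lt h1).symm
  have := PadicInt.norm_add_eq_max_of_ne h7
  rw [this, norm_one]
  exact max_eq_left h1.le

/-- a `p`-th root of an element near `1`, approximately -/
lemma root_p_approx {m : ℕ} (hm : 1 ≤ m) (h2 : p = 2 → 2 ≤ m) (w : ℤ_[p]) :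
    (p : ℤ_[p]) ^ 3 ∣ (1 + (p : ℤ_[p]) ^ m * w) ^ p - (1 + (p : ℤ_[p]) ^ (m + 1) * w) := by
  have hp1 := hp.out.two_le
  have hexp := add_pow_prime_eq' hp.out ((p : ℤ_[p]) ^ m * w) 1
  have hsplit : Finset.Ioo 0 p = insert 1 (Finset.Ioo 1 p) := by
    ext i
    simp only [Finset.mem_Ioo, Finset.mem_insert]
    omega
  rw [hsplit, Finset.sum_insert (by simp)] at hexp
  have hc1 : ((p.choose 1 / p : ℕ) : ℤ_[p]) = 1 := by
    rw [Nat.choose_one_right, Nat.div_self (by omega)]; simp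
  rw [hc1] at hexp
  have e : (1 + (p : ℤ_[p]) ^ m * w) ^ p - (1 + (p : ℤ_[p]) ^ (m + 1) * w) =
      ((p : ℤ_[p]) ^ m * w) ^ p + p * ∑ i ∈ Finset.Ioo 1 p,
        ((p : ℤ_[p]) ^ m * w) ^ i * 1 ^ (p - i) * ((p.choose i / p : ℕ) : ℤ_[p]) := by
    rw [add_comm 1 ((p : ℤ_[p]) ^ m * w), hexp, pow_succ]
    ring
  rw [e]
  apply dvd_add
  · rw [mul_pow, ← pow_mul]
    apply Dvd.dvd.mul_right
    apply pow_dvd_pow
    rcases Nat.lt_or_ge 2 p with h | h
    · nlinarith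
    · have : p = 2 := by omega
      have := h2 this
      nlinarith
  · rw [Finset.mul_sum]
    refine Finset.dvd_sum fun i hi => ?_
    rw [Finset.mem_Ioo] at hi
    have h3 : (p : ℤ_[p]) ^ 2 ∣ ((p : ℤ_[p]) ^ m * w) ^ i := by
      rw [mul_pow, ← pow_mul]
      apply Dvd.dvd.mul_right
      apply pow_dvd_pow
      nlinarith
    rw [pow_succ' _ 2]
    apply mul_dvd_mul_left
    exact (h3.mul_right _).mul_right _

/-- a `p`-th root of an element near `1` -/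
lemma root_p {m : ℕ} (hm : 1 ≤ m) (h2 : p = 2 → 2 ≤ m) (u : ℤ_[p])
    (hu : (p : ℤ_[p]) ^ (m + 1) ∣ u - 1) : ∃ v : ℤ_[p], v ^ p = u ∧ (p : ℤ_[p]) ^ m ∣ v - 1 := by
  obtain ⟨w, hw⟩ := hu
  have hu' : u = 1 + (p : ℤ_[p]) ^ (m + 1) * w := by rw [← hw]; ring
  set a := 1 + (p : ℤ_[p]) ^ m * w with ha
  have haU : IsUnit a := isUnit_one_add w m hm
  have hp1 := hp.out.two_le
  have hnorm : ‖(p : ℤ_[p]) * a ^ (p - 1)‖ = ‖(p : ℤ_[p])‖ := by
    rw [norm_mul, norm_pow, PadicInt.isUnit_iff.1 haU, one_pow, mul_one]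
  have hpn : ‖(p : ℤ_[p])‖ < 1 := norm_p_lt
  have hpn0 : 0 < ‖(p : ℤ_[p])‖ := by
    rw [norm_pos_iff]
    exact_mod_cast hp.out.ne_zero
  have hdvd := root_p_approx hm h2 w
  rw [← ha, ← hu'] at hdvd
  obtain ⟨v, hv, hva⟩ := root_aux u a p (by
    rw [hnorm]
    obtain ⟨c, hc⟩ := hdvd
    rw [hc, norm_mul, norm_pow]
    have := PadicInt.norm_le_one c
    have h3 : ‖(p : ℤ_[p])‖ ^ 3 < ‖(p : ℤ_[p])‖ ^ 2 :=
      pow_lt_pow_right_of_lt_one₀ hpn0 hpn (by norm_num)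
    have h4 : 0 < ‖(p : ℤ_[p])‖ ^ 3 := by positivity
    nlinarith)
  rw [hnorm] at hva
  refine ⟨v, hv, ?_⟩
  -- `v` is congruent to `a` modulo `p ^ 2`
  have h4 : (p : ℤ_[p]) ^ 2 ∣ v - a := by
    have h5 : ‖v - a‖ < (p : ℝ) ^ (-(1 : ℕ) : ℤ) := by
      rw [PadicInt.norm_p] at hva
      simpa using hva
    have h6 : ‖v - a‖ ≤ (p : ℝ) ^ (-(2 : ℕ) : ℤ) := by
      have := (PadicInt.norm_lt_pow_iff_norm_le_pow_sub_one (v - a) (-(1 : ℕ) : ℤ)).1 h5
      simpa using this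
    exact (PadicInt.norm_le_pow_iff_mem_span_pow (v - a) 2).1 h6 |> Ideal.mem_span_singleton.1
  rcases Nat.lt_or_ge 1 m with hm1 | hm1
  · -- `m ≥ 2`
    have h5 : (p : ℤ_[p]) ^ 2 ∣ v - 1 := by
      have e : v - 1 = (v - a) + (p : ℤ_[p]) ^ m * w := by rw [ha]; ring
      rw [e]
      exact dvd_add h4 ((pow_dvd_pow _ hm1).mul_right _)
    have h6 : v ^ p - 1 = (∑ i ∈ Finset.range p, v ^ i) * (v - 1) := (geom_sum_mul v p).symm
    have h7 : (p : ℤ_[p]) ^ 2 ∣ (∑ i ∈ Finset.range p, v ^ i) - p := by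
      have : (∑ i ∈ Finset.range p, v ^ i) - (p : ℤ_[p]) = ∑ i ∈ Finset.range p, (v ^ i - 1) := by
        rw [Finset.sum_sub_distrib]; simp
      rw [this]
      refine Finset.dvd_sum fun i _ => h5.trans ?_
      exact sub_one_dvd_pow_sub_one v i
    obtain ⟨c, hc⟩ := h7
    have h8 : (∑ i ∈ Finset.range p, v ^ i) = p * (1 + p * c) := by
      have : (∑ i ∈ Finset.range p, v ^ i) = p + (p : ℤ_[p]) ^ 2 * c := by rw [← hc]; ring
      rw [this]; ring
    have h9 : IsUnit (1 + (p : ℤ_[p]) * c) := by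
      have := isUnit_one_add c 1 le_rfl
      rwa [pow_one] at this
    rw [h8, hv, hw] at h6
    have hp0 : (p : ℤ_[p]) ≠ 0 := by exact_mod_cast hp.out.ne_zero
    have h10 : (p : ℤ_[p]) ^ m * w = (1 + p * c) * (v - 1) := by
      apply mul_left_cancel₀ hp0
      calc (p : ℤ_[p]) * (p ^ m * w) = p ^ (m + 1) * w := by ring
        _ = p * (1 + p * c) * (v - 1) := h6
        _ = _ := by ring
    have h11 : (p : ℤ_[p]) ^ m ∣ (1 + p * c) * (v - 1) := by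
      rw [← h10]; exact dvd_mul_right _ _
    exact (h9.dvd_mul_left).1 h11
  · have hm' : m = 1 := by omega
    rw [hm'] at ha ⊢
    rw [pow_one] at ha ⊢
    have e : v - 1 = (v - a) + (p : ℤ_[p]) * w := by rw [ha]; ring
    rw [e]
    refine dvd_add ((dvd_pow_self _ (by norm_num)).trans h4) (dvd_mul_right _ _)

/-- iterated `p`-th roots -/
lemma root_pow (e : ℕ) (he : 1 ≤ e) (h2 : p = 2 → 2 ≤ e) (t : ℕ) : ∀ u : ℤ_[p],
    (p : ℤ_[p]) ^ (t + e) ∣ u - 1 → ∃ v : ℤ_[p], v ^ (p ^ t) = u ∧ (p : ℤ_[p]) ^ e ∣ v - 1 := by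
  induction t with
  | zero =>
    intro u hu
    rw [zero_add] at hu
    exact ⟨u, by simp, hu⟩
  | succ t ih =>
    intro u hu
    obtain ⟨v, hv, hv1⟩ := root_p (m := t + e) (by omega) (fun h => by have := h2 h; omega) u
      (by rw [show t + e + 1 = t + 1 + e by omega]; exact hu)
    obtain ⟨w, hw, hw1⟩ := ih v hv1
    exact ⟨w, by rw [pow_succ, pow_mul, hw, hv], hw1⟩

/-- an element congruent to `1` modulo `p ^ gam p k` is a `k`-th power -/
theorem root_k {k : ℕ} (hk : 1 ≤ k) (u : ℤ_[p]) (hu : (p : ℤ_[p]) ^ gam p k ∣ u - 1) :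
    ∃ r : ℤ_[p], r ^ k = u := by
  -- the prime to `p` part
  have hcop : ∀ n : ℕ, ¬ p ∣ n → ∀ u : ℤ_[p], (p : ℤ_[p]) ∣ u - 1 → ∃ r : ℤ_[p], r ^ n = u := by
    intro n hn u hu
    have hpn : ‖(p : ℤ_[p])‖ < 1 := norm_p_lt
    have hn1 : ‖(n : ℤ_[p])‖ = 1 := by
      rw [← PadicInt.isUnit_iff]
      by_contra hcon
      have h1 : ‖(n : ℤ_[p])‖ < 1 := PadicInt.not_isUnit_iff.1 hcon
      exact hn (by
        have h2 := (PadicInt.norm_int_lt_one_iff_dvd (p := p) (n : ℤ)).1 (by exact_mod_cast h1)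
        exact_mod_cast h2)
    obtain ⟨v, hv, -⟩ := root_aux u 1 n (by
      rw [one_pow, one_pow, mul_one, hn1, one_pow]
      obtain ⟨c, hc⟩ := hu
      rw [norm_sub_rev, hc, norm_mul]
      have := PadicInt.norm_le_one c
      have h4 := norm_nonneg (p : ℤ_[p])
      nlinarith [norm_nonneg c])
    exact ⟨v, hv⟩
  unfold gam at hu
  by_cases hpk : p ∣ k
  · rw [if_pos hpk] at hu
    set t := padicValNat p k with ht
    obtain ⟨k', hk'⟩ : p ^ t ∣ k := pow_padicValNat_dvd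
    have hk'p : ¬ p ∣ k' := by
      intro hd
      have h1 : p ^ (t + 1) ∣ k := by
        rw [hk', pow_succ]
        exact mul_dvd_mul_left _ hd
      exact pow_succ_padicValNat_not_dvd (by omega) h1
    obtain ⟨v, hv, hv1⟩ : ∃ v : ℤ_[p], v ^ (p ^ t) = u ∧ (p : ℤ_[p]) ∣ v - 1 := by
      by_cases h2 : p = 2
      · subst h2
        rw [if_pos rfl] at hu
        obtain ⟨v, hv, hv1⟩ := root_pow 2 (by norm_num) (fun _ => le_rfl) t u hu
        exact ⟨v, hv, (dvd_pow_self _ (by norm_num)).trans hv1⟩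
      · rw [if_neg h2] at hu
        obtain ⟨v, hv, hv1⟩ := root_pow 1 le_rfl (fun h => absurd h h2) t u hu
        exact ⟨v, hv, by rwa [pow_one] at hv1⟩
    obtain ⟨r, hr⟩ := hcop k' hk'p v hv1
    exact ⟨r, by rw [hk', mul_comm, pow_mul, hr, hv]⟩
  · rw [if_neg hpk, pow_one] at hu
    exact hcop k hpk u hu

end Pool.Agent.KS6_15.HP
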