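import Mathlib

/-!
# Zero-sum subsequences in finite abelian `p`-groups (Olson's group ring argument)
-/

set_option autoImplicit false

namespace Pool.Agent.KS6_15.HP

open Finset

/-- the group ring -/
abbrev GR (p : ℕ) (G : Type) [AddCommGroup G] : Type := AddMonoidAlgebra (ZMod p) G

/-- the basis elements -/
noncomputable def xx (p : ℕ) {G : Type} [AddCommGroup G] (g : G) : GR p G :=
  AddMonoidAlgebra.single g 1

lemma xx_add (p : ℕ) {G : Type} [AddCommGroup G] (g h : G) : xx p (g + h) = xx p g * xx p h := by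
  unfold xx
  rw [AddMonoidAlgebra.single_mul_single, one_mul]

lemma xx_zero (p : ℕ) {G : Type} [AddCommGroup G] : xx p (0 : G) = 1 := rfl

lemma xx_nsmul (p : ℕ) {G : Type} [AddCommGroup G] (n : ℕ) (g : G) :
    xx p (n • g) = xx p g ^ n := by
  unfold xx
  rw [AddMonoidAlgebra.single_pow, one_pow]

/-- the elements `g` with `1 - x ^ g` in an ideal form a submonoid -/
def HI (p : ℕ) {G : Type} [AddCommGroup G] (I : Ideal (GR p G)) : AddSubmonoid G where
  carrier := {g | 1 - xx p g ∈ I}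
  zero_mem' := by
    show 1 - xx p (0 : G) ∈ I
    rw [xx_zero, sub_self]
    exact I.zero_mem
  add_mem' := by
    intro a b ha hb
    show 1 - xx p (a + b) ∈ I
    have e : 1 - xx p (a + b) = (1 - xx p a) + xx p a * (1 - xx p b) := by
      rw [xx_add]; ring
    rw [e]
    exact I.add_mem ha (I.mul_mem_left _ hb)

instance instCharGR (p : ℕ) [hp : Fact p.Prime] {G : Type} [AddCommGroup G] : CharP (GR p G) p :=
  charP_of_injective_algebraMap (algebraMap (ZMod p) (GR p G)).injective p

lemma nil_gen (p : ℕ) [hp : Fact p.Prime] {G : Type} [AddCommGroup G] (γ : ℕ) (g : G)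
    (hg : (p ^ γ) • g = 0) : (1 - xx p g) ^ (p ^ γ) = 0 := by
  rw [sub_pow_char_pow, one_pow, ← xx_nsmul, hg, xx_zero, sub_self]

lemma bot_pow' {R : Type*} [CommRing R] (N : ℕ) (hN : 1 ≤ N) : (⊥ : Ideal R) ^ N = ⊥ := by
  rw [eq_bot_iff]
  exact Ideal.pow_le_self (by omega)

lemma span_pow' {R : Type*} [CommRing R] {κ : Type*} (s : Finset κ) (b : κ → R) (n : ℕ)
    (hb : ∀ m ∈ s, b m ^ n = 0) : ∀ N : ℕ, s.card * n ≤ N → 1 ≤ N →
    (⨆ m ∈ s, Ideal.span {b m}) ^ N = ⊥ := by
  classical
  induction s using Finset.induction_on with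
  | empty =>
    intro N _ hN
    simp only [Finset.notMem_empty, not_false_eq_true, iSup_neg, iSup_bot]
    exact bot_pow' N hN
  | insert a s ha ih =>
    intro N hN hN1
    have h1 := ih (fun m hm => hb m (Finset.mem_insert_of_mem hm))
    have hba : Ideal.span {b a} ^ n = (⊥ : Ideal R) := by
      rw [Ideal.span_singleton_pow, hb a (Finset.mem_insert_self _ _)]
      exact Ideal.span_singleton_eq_bot.2 rfl
    rw [Finset.card_insert_of_notMem ha, add_mul, one_mul] at hN
    rw [Finset.iSup_insert]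
    rcases Nat.lt_or_ge n N with hlt | hge
    · obtain ⟨M, rfl⟩ := Nat.exists_eq_add_of_lt hlt
      rw [eq_bot_iff]
      rw [show n + M + 1 = n + (M + 1) by ring]
      refine (Ideal.sup_pow_add_le_pow_sup_pow).trans ?_
      rw [hba, h1 (M + 1) (by omega) (by omega), sup_idem]
    · have h0 : s.card * n = 0 := by omega
      have hn : N = n := by omega
      subst hn
      have h0' : s.card = 0 := by
        rcases mul_eq_zero.1 h0 with h | h
        · exact h
        · omega
      rw [Finset.card_eq_zero] at h0'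
      subst h0'
      simp only [Finset.notMem_empty, not_false_eq_true, iSup_neg, iSup_bot, sup_bot_eq]
      exact hba

lemma zero_sum_aux (p : ℕ) [hp : Fact p.Prime] (R γ : ℕ) (hR : 1 ≤ R) {G : Type} [AddCommGroup G]
    [DecidableEq G] (e : Fin R → G) (he : ∀ m, (p ^ γ) • e m = 0)
    (hgen : ∀ H : AddSubmonoid G, (∀ m, e m ∈ H) → ∀ v, v ∈ H) {ι : Type} [Fintype ι]
    [DecidableEq ι] (g : ι → G) (h : R * p ^ γ ≤ Fintype.card ι) :
    ∃ S : Finset ι, S.Nonempty ∧ ∑ i ∈ S, g i = 0 := by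
  by_contra hcon
  push Not at hcon
  have hpg : 0 < p ^ γ := pow_pos hp.out.pos _
  obtain ⟨I, hI⟩ : ∃ I : Ideal (GR p G),
    I = ⨆ m ∈ (Finset.univ : Finset (Fin R)), Ideal.span {1 - xx p (e m)} := ⟨_, rfl⟩
  have hIn : I ^ Fintype.card ι = ⊥ := by
    rw [hI]
    refine span_pow' Finset.univ _ (p ^ γ) (fun m _ => nil_gen p γ _ (he m)) _ ?_ ?_
    · simpa using h
    · refine le_trans ?_ h
      exact Nat.one_le_iff_ne_zero.2 (by positivity)
  have hall : ∀ v : G, v ∈ HI p I := by
    refine hgen _ fun m => ?_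
    show 1 - xx p (e m) ∈ I
    rw [hI]
    exact (le_iSup₂_of_le m (Finset.mem_univ m) le_rfl :
      Ideal.span {1 - xx p (e m)} ≤ _) (Ideal.mem_span_singleton_self _)
  have hprod : ∏ i : ι, (1 - xx p (g i)) = 0 := by
    have h1 : ∏ i : ι, (1 - xx p (g i)) ∈ ∏ i : ι, I :=
      Ideal.prod_mem_prod fun i _ => hall (g i)
    rw [Finset.prod_const, Finset.card_univ, hIn] at h1
    exact h1
  have hexp : ∏ i : ι, (1 - xx p (g i)) =
      ∑ S ∈ (Finset.univ : Finset ι).powerset, (AddMonoidAlgebra.single (∑ i ∈ S, g i)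
        ((-1 : ZMod p) ^ S.card) : GR p G) := by
    have e1 : ∀ i, 1 - xx p (g i) = (AddMonoidAlgebra.single (g i) (-1 : ZMod p) : GR p G) + 1 := by
      intro i
      unfold xx
      rw [AddMonoidAlgebra.single_neg]
      ring
    rw [Finset.prod_congr rfl fun i _ => e1 i, Finset.prod_add_one]
    refine Finset.sum_congr rfl fun S _ => ?_
    rw [AddMonoidAlgebra.prod_single]
    simp
  rw [hexp] at hprod
  have hcoef := congrArg (fun f : GR p G => f.coeff 0) hprod
  simp only [AddMonoidAlgebra.coeff_zero, Finsupp.coe_zero, Pi.zero_apply] at hcoef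
  rw [AddMonoidAlgebra.coeff_sum, Finsupp.finsetSum_apply, Finset.sum_eq_single ∅] at hcoef
  · simp at hcoef
  · intro S _ hS
    have := hcon S (Finset.nonempty_iff_ne_empty.2 hS)
    rw [AddMonoidAlgebra.coeff_single]
    exact Finsupp.single_eq_of_ne this.symm
  · intro h
    exact absurd (Finset.empty_mem_powerset _) h

/-- a family of `R p ^ γ` elements of `(ℤ / p ^ γ) ^ R` has a nonempty zero-sum subfamily. -/
theorem zero_sum (p : ℕ) [hp : Fact p.Prime] (R γ : ℕ) (hR : 1 ≤ R) {ι : Type} [Fintype ι]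
    [DecidableEq ι] (g : ι → Fin R → ZMod (p ^ γ)) (h : R * p ^ γ ≤ Fintype.card ι) :
    ∃ S : Finset ι, S.Nonempty ∧ ∑ i ∈ S, g i = 0 := by
  have hpg : 0 < p ^ γ := pow_pos hp.out.pos _
  have : NeZero (p ^ γ) := ⟨hpg.ne'⟩
  refine zero_sum_aux p R γ hR (fun m => Pi.single m (1 : ZMod (p ^ γ))) ?_ ?_ g h
  · intro m
    funext j
    simp
  · intro H hH v
    have e : v = ∑ m, (v m).val • (Pi.single m (1 : ZMod (p ^ γ)) : Fin R → ZMod (p ^ γ)) := by
      funext j
      rw [Finset.sum_apply, Finset.sum_eq_single j]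
      · simp
      · intro b _ hb
        simp [Pi.single_eq_of_ne (Ne.symm hb)]
      · simp
    rw [e]
    exact AddSubmonoid.sum_mem _ fun m _ => AddSubmonoid.nsmul_mem _ (hH m) _

end Pool.Agent.KS6_15.HP
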