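import Mathlib
import Pool.Agent.KS6_15.HP.Root
import Pool.Agent.KS6_15.HP.ZeroSum

/-!
# Congruences for systems of additive forms
-/

set_option autoImplicit false

namespace Pool.Agent.KS6_15.HP

open Finset

/-- every family of columns indexed by `κ` has a nontrivial solution modulo `p ^ j`, the entries
being zero or units -/
def Sol (p : ℕ) [Fact p.Prime] (K R j : ℕ) (κ : Type) [Fintype κ] : Prop :=
  ∀ a : Fin R → κ → ℤ_[p], ∃ y : κ → ℤ_[p], (∀ i, y i = 0 ∨ IsUnit (y i)) ∧ (∃ i, y i ≠ 0) ∧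
    ∀ m, (p : ℤ_[p]) ^ j ∣ ∑ i, a m i * y i ^ K

variable {p : ℕ} [hp : Fact p.Prime]

lemma Sol.transfer {K R j : ℕ} (hK : 1 ≤ K) {κ ι : Type} [Fintype κ] [Fintype ι] (f : κ → ι)
    (hf : Function.Injective f) (h : Sol p K R j κ) : Sol p K R j ι := by
  intro a
  obtain ⟨y, hy, ⟨i0, hi0⟩, hyc⟩ := h (fun m i => a m (f i))
  refine ⟨Function.extend f y 0, ?_, ⟨f i0, ?_⟩, ?_⟩
  · intro i
    by_cases hi : ∃ x, f x = i
    · obtain ⟨x, rfl⟩ := hi
      rw [hf.extend_apply]
      exact hy x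
    · left
      rw [Function.extend_apply' _ _ _ hi]
      rfl
  · rw [hf.extend_apply]
    exact hi0
  · intro m
    have e : ∑ i, a m i * Function.extend f y 0 i ^ K = ∑ i, a m (f i) * y i ^ K := by
      symm
      refine Fintype.sum_of_injective f hf _ _ ?_ ?_
      · intro i hi
        rw [Function.extend_apply' _ _ _ (by simpa [Set.mem_range] using hi)]
        simp only [Pi.zero_apply]
        rw [zero_pow (by omega), mul_zero]
      · intro i
        rw [hf.extend_apply]
    rw [e]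
    exact hyc m

lemma Sol.contract {K R j : ℕ} {κ1 κ2 : Type} [Fintype κ1] [Fintype κ2]
    (h1 : Sol p K R 1 κ1) (h2 : Sol p K R j κ2) : Sol p K R (j + 1) (κ1 × κ2) := by
  intro a
  have hx : ∀ b : κ1, ∃ y : κ2 → ℤ_[p], (∀ i, y i = 0 ∨ IsUnit (y i)) ∧ (∃ i, y i ≠ 0) ∧
    ∀ m, (p : ℤ_[p]) ^ j ∣ ∑ i, a m (b, i) * y i ^ K := fun b => h2 (fun m i => a m (b, i))
  choose y hy1 hy2 hy3 using hx
  choose e he using hy3
  obtain ⟨z, hz1, ⟨b0, hb0⟩, hz3⟩ := h1 (fun m b => e b m)
  refine ⟨fun x => z x.1 * y x.1 x.2, ?_, ?_, ?_⟩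
  · rintro ⟨b, i⟩
    rcases hz1 b with h | h
    · left; simp [h]
    · rcases hy1 b i with h' | h'
      · left; simp [h']
      · right; exact h.mul h'
  · obtain ⟨i0, hi0⟩ := hy2 b0
    exact ⟨(b0, i0), mul_ne_zero hb0 hi0⟩
  · intro m
    obtain ⟨c, hc⟩ := hz3 m
    rw [Fintype.sum_prod_type]
    have e1 : ∀ b : κ1, ∑ i, a m (b, i) * (z b * y b i) ^ K = p ^ j * (e b m * z b ^ K) := by
      intro b
      calc ∑ i, a m (b, i) * (z b * y b i) ^ K = z b ^ K * ∑ i, a m (b, i) * y b i ^ K := by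
            rw [Finset.mul_sum]
            refine Finset.sum_congr rfl fun i _ => ?_
            rw [mul_pow]; ring
        _ = _ := by rw [he]; ring
    rw [Finset.sum_congr rfl fun b _ => e1 b, ← Finset.mul_sum, hc, pow_succ, pow_one]
    exact mul_dvd_mul_left _ (dvd_mul_right _ _)

lemma Sol.zero {K R : ℕ} {ι : Type} [Fintype ι] (h : 1 ≤ Fintype.card ι) : Sol p K R 0 ι := by
  intro a
  have : Nonempty ι := Fintype.card_pos_iff.1 h
  exact ⟨fun _ => 1, fun _ => Or.inr isUnit_one, ⟨Classical.arbitrary ι, one_ne_zero⟩,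
    fun m => by simp⟩

lemma Sol.powers {K R D : ℕ} (hK : 1 ≤ K) (hD : Sol p K R 1 (Fin D)) (j : ℕ) :
    ∀ (ι : Type) [Fintype ι], D ^ j ≤ Fintype.card ι → Sol p K R j ι := by
  induction j with
  | zero =>
    intro ι _ h
    exact Sol.zero (by simpa using h)
  | succ j ih =>
    intro ι _ h
    have h1 : Sol p K R j (Fin (D ^ j)) := ih _ (by simp)
    have h2 := Sol.contract hD h1
    have h3 : Fintype.card (Fin D × Fin (D ^ j)) ≤ Fintype.card ι := by
      rw [Fintype.card_prod, Fintype.card_fin, Fintype.card_fin]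
      rwa [pow_succ, mul_comm] at h
    obtain ⟨f⟩ := Function.Embedding.nonempty_of_card_le h3
    exact Sol.transfer hK f f.injective h2

/-- the `gcd (K, p - 1)`-th powers modulo `p` are `K`-th powers -/
lemma gcd_pow (K : ℕ) (hK : 1 ≤ K) (x : ZMod p) :
    ∃ s : ZMod p, s ^ K = x ^ (Nat.gcd K (p - 1)) ∧ (s = 0 ↔ x = 0) := by
  by_cases hx : x = 0
  · subst hx
    refine ⟨0, ?_, by simp⟩
    rw [zero_pow (by omega), zero_pow]
    exact (Nat.gcd_pos_of_pos_left _ (by omega)).ne'
  · refine ⟨x ^ (Nat.gcdA K (p - 1)), ?_, ?_⟩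
    · have h1 := Nat.gcd_eq_gcd_ab K (p - 1)
      have h2 : x ^ (p - 1) = 1 := ZMod.pow_card_sub_one_eq_one hx
      rw [← zpow_natCast x (Nat.gcd K (p - 1)), h1, zpow_add₀ hx, zpow_mul, zpow_mul, ← zpow_natCast,
        ← zpow_mul, ← zpow_mul, zpow_natCast x (p - 1), h2, one_zpow, mul_one, mul_comm]
    · constructor
      · intro h
        exact absurd h (zpow_ne_zero _ hx)
      · intro h
        exact absurd h hx

lemma lift_zmod (s : ZMod p) : ∃ y : ℤ_[p], PadicInt.toZMod y = s ∧ (y = 0 ∨ IsUnit y) ∧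
    (s ≠ 0 → y ≠ 0) := by
  by_cases hs : s = 0
  · exact ⟨0, by simp [hs], Or.inl rfl, fun h => absurd hs h⟩
  · refine ⟨(s.val : ℤ_[p]), by simp, Or.inr ?_, ?_⟩
    · by_contra hcon
      have h1 : ((s.val : ℕ) : ℤ_[p]) ∈ IsLocalRing.maximalIdeal ℤ_[p] :=
        (IsLocalRing.mem_maximalIdeal _).2 hcon
      rw [← PadicInt.ker_toZMod, RingHom.mem_ker] at h1
      simp at h1
      exact hs h1
    · intro _ h0
      have : PadicInt.toZMod ((s.val : ℕ) : ℤ_[p]) = (0 : ZMod p) := by rw [h0]; simp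
      simp at this
      exact hs this

lemma Sol.cw {K R : ℕ} (hK : 1 ≤ K) {κ : Type} [Fintype κ]
    (h : R * Nat.gcd K (p - 1) < Fintype.card κ) : Sol p K R 1 κ := by
  classical
  intro a
  set d := Nat.gcd K (p - 1) with hd
  have hd1 : 1 ≤ d := Nat.gcd_pos_of_pos_left _ (by omega)
  let f : Fin R → MvPolynomial κ (ZMod p) := fun m =>
    ∑ i, MvPolynomial.C (PadicInt.toZMod (a m i)) * MvPolynomial.X i ^ d
  have hdeg : ∀ m, (f m).totalDegree ≤ d := by
    intro m
    refine (MvPolynomial.totalDegree_finsetSum _ _).trans ?_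
    refine Finset.sup_le fun i _ => ?_
    refine (MvPolynomial.totalDegree_mul _ _).trans ?_
    rw [MvPolynomial.totalDegree_C, zero_add]
    refine (MvPolynomial.totalDegree_pow _ _).trans ?_
    rw [MvPolynomial.totalDegree_X, mul_one]
  have hsum : ∑ m ∈ (Finset.univ : Finset (Fin R)), (f m).totalDegree < Fintype.card κ := by
    refine lt_of_le_of_lt (Finset.sum_le_sum fun m _ => hdeg m) ?_
    simpa using h
  have hdvd := char_dvd_card_solutions_of_sum_lt p hsum
  have heval : ∀ (x : κ → ZMod p) (m : Fin R), MvPolynomial.eval x (f m) =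
      ∑ i, PadicInt.toZMod (a m i) * x i ^ d := by
    intro x m
    simp [f]
  have h0 : ∀ m ∈ (Finset.univ : Finset (Fin R)), MvPolynomial.eval (0 : κ → ZMod p) (f m) = 0 := by
    intro m _
    rw [heval]
    refine Finset.sum_eq_zero fun i _ => ?_
    simp [show d ≠ 0 by omega]
  obtain ⟨x, hx, hx0⟩ : ∃ x : κ → ZMod p, (∀ m, MvPolynomial.eval x (f m) = 0) ∧ x ≠ 0 := by
    by_contra hcon
    push Not at hcon
    have hc1 : ∀ inst : Fintype {x : κ → ZMod p // ∀ m ∈ (Finset.univ : Finset (Fin R)),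
        MvPolynomial.eval x (f m) = 0}, @Fintype.card _ inst = 1 := by
      intro inst
      rw [Fintype.card_eq_one_iff]
      refine ⟨⟨0, h0⟩, ?_⟩
      rintro ⟨x, hx⟩
      exact Subtype.ext (hcon x fun m => hx m (Finset.mem_univ m))
    rw [hc1] at hdvd
    exact hp.out.one_lt.ne' (Nat.dvd_one.1 hdvd)
  choose s hs hs0 using gcd_pow (p := p) K hK
  choose y hy1 hy2 hy3 using lift_zmod (p := p)
  refine ⟨fun i => y (s (x i)), fun i => hy2 _, ?_, ?_⟩
  · obtain ⟨i, hi⟩ := Function.ne_iff.1 hx0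
    refine ⟨i, hy3 _ ?_⟩
    intro h
    exact hi ((hs0 _).1 h)
  · intro m
    rw [pow_one]
    have h1 : PadicInt.toZMod (∑ i, a m i * y (s (x i)) ^ K) = (0 : ZMod p) := by
      rw [map_sum, ← hx m, heval]
      refine Finset.sum_congr rfl fun i _ => ?_
      rw [map_mul, map_pow, hy1, hs]
    rw [← RingHom.mem_ker, PadicInt.ker_toZMod, PadicInt.maximalIdeal_eq_span_p,
      Ideal.mem_span_singleton] at h1
    exact h1

lemma Sol.zs {K R j : ℕ} (hK : 1 ≤ K) (hR : 1 ≤ R) {κ : Type} [Fintype κ]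
    (h : R * p ^ j ≤ Fintype.card κ) : Sol p K R j κ := by
  classical
  intro a
  obtain ⟨S, hS, hS0⟩ := zero_sum p R j hR (fun i m => PadicInt.toZModPow j (a m i)) h
  refine ⟨fun i => if i ∈ S then 1 else 0, ?_, ?_, ?_⟩
  · intro i
    by_cases hi : i ∈ S
    · right; simp [hi]
    · left; simp [hi]
  · obtain ⟨i, hi⟩ := hS
    exact ⟨i, by simp [hi]⟩
  · intro m
    have e : ∑ i, a m i * (if i ∈ S then (1 : ℤ_[p]) else 0) ^ K = ∑ i ∈ S, a m i := by
      rw [← Finset.sum_filter_add_sum_filter_not Finset.univ (fun i => i ∈ S)]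
      rw [Finset.filter_mem_eq_inter, Finset.univ_inter]
      rw [Finset.sum_congr rfl (g := fun i => a m i) (fun i hi => by simp [hi])]
      rw [add_eq_left]
      refine Finset.sum_eq_zero fun i hi => ?_
      simp only [Finset.mem_filter, Finset.mem_univ, true_and] at hi
      simp [hi, show K ≠ 0 by omega]
    rw [e]
    have h1 : PadicInt.toZModPow j (∑ i ∈ S, a m i) = 0 := by
      rw [map_sum]
      have := congrFun hS0 m
      rwa [Finset.sum_apply] at this
    rw [← RingHom.mem_ker, PadicInt.ker_toZModPow, Ideal.mem_span_singleton] at h1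
    exact h1


/-! ### the numbers of columns -/

omit hp in
lemma pow_val_le (K : ℕ) (hK : 1 ≤ K) : p ^ padicValNat p K ≤ K :=
  Nat.le_of_dvd (by omega) pow_padicValNat_dvd

/-- `2 R K ^ 2` columns suffice -/
theorem sol_gen {K R : ℕ} (hK : 1 ≤ K) (hR : 1 ≤ R) {κ : Type} [Fintype κ]
    (h : 2 * R * K ^ 2 ≤ Fintype.card κ) : Sol p K R (gam p K) κ := by
  by_cases hpK : p ∣ K
  · refine Sol.zs hK hR (le_trans ?_ h)
    have h1 : p ^ gam p K ≤ 2 * K ^ 2 := by
      have h2 := pow_val_le (p := p) K hK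
      have h3 : p ≤ K := Nat.le_of_dvd (by omega) hpK
      unfold gam
      rw [if_pos hpK]
      by_cases hp2 : p = 2
      · subst hp2
        rw [if_pos rfl, pow_add]
        nlinarith
      · rw [if_neg hp2, pow_succ]
        nlinarith [Nat.mul_le_mul h2 h3]
    calc R * p ^ gam p K ≤ R * (2 * K ^ 2) := Nat.mul_le_mul_left _ h1
      _ = 2 * R * K ^ 2 := by ring
  · unfold gam
    rw [if_neg hpK]
    refine Sol.cw hK (lt_of_lt_of_le ?_ h)
    have h1 : Nat.gcd K (p - 1) ≤ K := Nat.gcd_le_left _ (by omega)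
    calc R * Nat.gcd K (p - 1) ≤ R * K := Nat.mul_le_mul_left _ h1
      _ < 2 * R * K ^ 2 := by nlinarith [Nat.mul_pos hR hK]

/-- `4 K` columns suffice for one form -/
theorem sol_one {K : ℕ} (hK : 1 ≤ K) {κ : Type} [Fintype κ]
    (h : 4 * K ≤ Fintype.card κ) : Sol p K 1 (gam p K) κ := by
  set d := Nat.gcd K (p - 1) with hd
  have h1 : Sol p K 1 1 (Fin (d + 1)) := Sol.cw hK (by simp [hd])
  refine Sol.powers hK h1 (gam p K) κ (le_trans ?_ h)
  have hdK : d ≤ K := Nat.gcd_le_left _ (by omega)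
  by_cases hpK : p ∣ K
  · unfold gam
    rw [if_pos hpK]
    by_cases hp2 : p = 2
    · subst hp2
      rw [if_pos rfl]
      have h2 := pow_val_le (p := 2) K hK
      have h3 : d = 1 := by rw [hd]; simp
      rw [h3, pow_add]
      norm_num
      omega
    · rw [if_neg hp2]
      obtain ⟨K', hK'⟩ : p ^ padicValNat p K ∣ K := pow_padicValNat_dvd
      have hdp : d ≤ p - 1 := Nat.gcd_le_right _ (by have := hp.out.two_le; omega)
      have hcop : Nat.Coprime d (p ^ padicValNat p K) := by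
        apply Nat.Coprime.pow_right
        have h4 : Nat.Coprime (p - 1) p := by
          have : Nat.Coprime (p - 1) (p - 1 + 1) := by simp
          rwa [Nat.sub_add_cancel hp.out.one_lt.le] at this
        exact Nat.Coprime.coprime_dvd_left (Nat.gcd_dvd_right _ _) h4
      have hdK' : d ∣ K' := by
        have h5 : d ∣ p ^ padicValNat p K * K' := by
          rw [← hK']; exact Nat.gcd_dvd_left _ _
        exact hcop.dvd_of_dvd_mul_left h5
      have hK'0 : 0 < K' := by
        rcases Nat.eq_zero_or_pos K' with h6 | h6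
        · rw [h6, mul_zero] at hK'; omega
        · exact h6
      have h7 : d ≤ K' := Nat.le_of_dvd hK'0 hdK'
      have h8 : (d + 1) ^ padicValNat p K ≤ p ^ padicValNat p K :=
        Nat.pow_le_pow_left (by have := hp.out.two_le; omega) _
      calc (d + 1) ^ (padicValNat p K + 1) = (d + 1) ^ padicValNat p K * (d + 1) := pow_succ _ _
        _ ≤ p ^ padicValNat p K * (2 * K') := Nat.mul_le_mul h8 (by omega)
        _ = 2 * (p ^ padicValNat p K * K') := by ring
        _ = 2 * K := by rw [← hK']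
        _ ≤ 4 * K := by omega
  · unfold gam
    rw [if_neg hpK, pow_one]
    omega

end Pool.Agent.KS6_15.HP
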