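import Mathlib
import Pool.Agent.KS6_15.HP.Cong
import Pool.Graph.R_pool_sql_team_seeded_620a6dc7.helper132_hp_.T_GREEDY
import Pool.Graph.R_pool_sql_team_seeded_620a6dc7.helper132_hp_.T_NORM
import Pool.Graph.R_pool_sql_team_seeded_620a6dc7.helper132_hp_.T_PERT

/-!
# Exact zeros of systems of additive forms over `ℚ_p`
-/

set_option autoImplicit false

namespace Pool.Agent.KS6_15.HP

open Finset Pool.Agent.helper132_hp

variable {p : ℕ} [hp : Fact p.Prime]

/-- from a solution modulo `p ^ gam` containing a basis to an exact zero -/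
lemma exact_of_basis {k R : ℕ} (hk : 1 ≤ k) {ι : Type} [Fintype ι]
    (c : Fin R → ι → ℤ_[p]) (y : ι → ℤ_[p])
    (hy : ∀ m, (p : ℤ_[p]) ^ gam p k ∣ ∑ i, c m i * y i ^ k)
    (T : Fin R → ι) (hT : Function.Injective T) (hTy : ∀ j, IsUnit (y (T j)))
    (hdet : IsUnit (Matrix.of fun m i => c m (T i)).det) :
    ∃ ρ : ι → ℤ_[p], (∀ i, IsUnit (ρ i)) ∧ ∀ m, ∑ i, c m i * (y i * ρ i) ^ k = 0 := by
  classical
  have hgam : 1 ≤ gam p k := by
    unfold gam
    split_ifs <;> omega
  choose e he using hy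
  set M : Matrix (Fin R) (Fin R) ℤ_[p] := Matrix.of fun m i => c m (T i) with hM
  -- the solution of the linear system
  set v : Fin R → ℤ_[p] := M⁻¹.mulVec (fun m => - e m) with hv
  have hMv : M.mulVec v = fun m => - e m := by
    rw [hv, Matrix.mulVec_mulVec, Matrix.mul_nonsing_inv _ hdet, Matrix.one_mulVec]
  have hw : ∀ j : Fin R, ∃ w : ℤ_[p], y (T j) ^ k * w = v j := by
    intro j
    obtain ⟨u, hu⟩ := (hTy j).pow k
    exact ⟨((u⁻¹ : ℤ_[p]ˣ) : ℤ_[p]) * v j, by rw [← hu, ← mul_assoc, Units.mul_inv, one_mul]⟩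
  choose w hw using hw
  have hr : ∀ j : Fin R, ∃ r : ℤ_[p], r ^ k = 1 + p ^ gam p k * w j := by
    intro j
    refine root_k hk _ ?_
    rw [add_sub_cancel_left]
    exact dvd_mul_right _ _
  choose r hr using hr
  have hru : ∀ j, IsUnit (r j) := by
    intro j
    have h1 : IsUnit (r j ^ k) := by
      rw [hr]; exact isUnit_one_add (w j) (gam p k) hgam
    exact (isUnit_pow_iff (by omega)).1 h1
  refine ⟨Function.extend T r 1, ?_, ?_⟩
  · intro i
    by_cases hi : ∃ x, T x = i
    · obtain ⟨x, rfl⟩ := hi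
      rw [hT.extend_apply]
      exact hru x
    · rw [Function.extend_apply' _ _ _ hi]
      exact isUnit_one
  · intro m
    have e1 : ∑ i, c m i * (y i * Function.extend T r 1 i) ^ k =
        ∑ i, c m i * y i ^ k + ∑ i, c m i * y i ^ k * (Function.extend T r 1 i ^ k - 1) := by
      rw [← Finset.sum_add_distrib]
      refine Finset.sum_congr rfl fun i _ => ?_
      rw [mul_pow]; ring
    have e2 : ∑ i, c m i * y i ^ k * (Function.extend T r 1 i ^ k - 1) =
        ∑ j, p ^ gam p k * (c m (T j) * v j) := by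
      symm
      refine Fintype.sum_of_injective T hT _ _ ?_ ?_
      · intro i hi
        rw [Function.extend_apply' _ _ _ (by simpa [Set.mem_range] using hi)]
        simp
      · intro j
        rw [hT.extend_apply, hr, ← hw j]
        ring
    have e3 : ∑ j, c m (T j) * v j = - e m := congrFun hMv m
    rw [e1, e2, he m, ← Finset.mul_sum, e3]
    ring

/-- a normalised system has an exact zero -/
lemma exact_norm {k R D : ℕ} (hk : 1 ≤ k) (hR : 1 ≤ R) (hD1 : 1 ≤ D)
    (hD : ∀ (κ : Type) [Fintype κ], D ≤ Fintype.card κ → Sol p k R (gam p k) κ)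
    {ι : Type} [Fintype ι] [DecidableEq ι] (c : Fin R → ι → ℤ_[p])
    (hcard : R * k * D ≤ Fintype.card ι)
    (h : ∀ lam : Fin R → ℤ_[p], (∃ m, IsUnit (lam m)) →
      Fintype.card ι ≤ R * k * (Finset.univ.filter fun i => ¬ ‖∑ m, lam m * c m i‖ < 1).card) :
    ∃ y : ι → ℤ_[p], (∃ i, IsUnit (y i)) ∧ ∀ m, ∑ i, c m i * y i ^ k = 0 := by
  classical
  -- solutions of the congruences
  obtain ⟨Q, hQ⟩ : ∃ Q : (ι → ℤ_[p]) → Prop, ∀ y, Q y ↔ (∀ i, y i = 0 ∨ IsUnit (y i)) ∧
    ∀ m, (p : ℤ_[p]) ^ gam p k ∣ ∑ i, c m i * y i ^ k := ⟨_, fun y => Iff.rfl⟩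
  have hex : ∃ y, Q y ∧ ∀ y', Q y' → (Finset.univ.filter fun i => y' i ≠ 0).card ≤
      (Finset.univ.filter fun i => y i ≠ 0).card := by
    have hb : ∃ n, ∀ y, Q y → (Finset.univ.filter fun i => y i ≠ 0).card ≤ n :=
      ⟨Fintype.card ι, fun y _ => Finset.card_le_univ _⟩
    have hmin := Nat.find_spec hb
    have hQ0 : Q 0 := by
      rw [hQ]
      refine ⟨fun i => Or.inl rfl, fun m => ?_⟩
      have : ∑ i, c m i * (0 : ι → ℤ_[p]) i ^ k = 0 :=
        Finset.sum_eq_zero fun i _ => by simp [show k ≠ 0 by omega]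
      rw [this]
      exact dvd_zero _
    rcases Nat.eq_zero_or_pos (Nat.find hb) with h0 | h0
    · refine ⟨0, hQ0, fun y' hy' => ?_⟩
      have := hmin y' hy'
      omega
    · have h1 := Nat.find_min hb (m := Nat.find hb - 1) (by omega)
      push Not at h1
      obtain ⟨y, hy, hyc⟩ := h1
      exact ⟨y, hy, fun y' hy' => by have := hmin y' hy'; omega⟩
  obtain ⟨y, hy, hmax⟩ := hex
  rw [hQ] at hy
  set U : Finset ι := Finset.univ.filter fun i => y i = 0 with hU
  have hUD : U.card < D := by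
    by_contra hcon
    push Not at hcon
    have h1 : D ≤ Fintype.card {i // i ∈ U} := by simpa using hcon
    obtain ⟨z, hz1, ⟨i0, hi0⟩, hz3⟩ := hD {i // i ∈ U} h1 (fun m i => c m i.1)
    set z' : ι → ℤ_[p] := Function.extend Subtype.val z 0 with hz'
    have hval : Function.Injective (Subtype.val : {i // i ∈ U} → ι) := Subtype.val_injective
    have hz'1 : ∀ i : {i // i ∈ U}, z' i.1 = z i := fun i => hval.extend_apply _ _ _
    have hz'2 : ∀ i, i ∉ U → z' i = 0 := by
      intro i hi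
      rw [hz', Function.extend_apply' _ _ _ (by rintro ⟨x, rfl⟩; exact hi x.2)]
      rfl
    have hyU : ∀ i, i ∈ U → y i = 0 := by
      intro i hi
      rw [hU] at hi
      simpa using hi
    have hyU' : ∀ i, i ∉ U → y i ≠ 0 := by
      intro i hi
      rw [hU] at hi
      simpa using hi
    have hsum : ∀ i, (y i + z' i) ^ k = y i ^ k + z' i ^ k := by
      intro i
      by_cases hi : i ∈ U
      · rw [hyU i hi, zero_pow (by omega), zero_add, zero_add]
      · rw [hz'2 i hi, zero_pow (by omega), add_zero, add_zero]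
    have hQn : Q (fun i => y i + z' i) := by
      rw [hQ]
      refine ⟨fun i => ?_, fun m => ?_⟩
      · by_cases hi : i ∈ U
        · rw [hyU i hi, zero_add]
          have := hz1 ⟨i, hi⟩
          rw [← hz'1] at this
          exact this
        · rw [hz'2 i hi, add_zero]
          exact hy.1 i
      · have e1 : ∑ i, c m i * (y i + z' i) ^ k =
            ∑ i, c m i * y i ^ k + ∑ i, c m i * z' i ^ k := by
          rw [← Finset.sum_add_distrib]
          refine Finset.sum_congr rfl fun i _ => ?_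
          rw [hsum]; ring
        have e2 : ∑ i, c m i * z' i ^ k = ∑ i : {i // i ∈ U}, c m i.1 * z i ^ k := by
          symm
          refine Fintype.sum_of_injective Subtype.val hval _ _ ?_ ?_
          · intro i hi
            have : i ∉ U := by
              intro hiU
              exact hi ⟨⟨i, hiU⟩, rfl⟩
            rw [hz'2 i this, zero_pow (by omega), mul_zero]
          · intro i
            rw [hz'1]
        rw [e1, e2]
        exact dvd_add (hy.2 m) (hz3 m)
    have h2 := hmax _ hQn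
    have h3 : (Finset.univ.filter fun i => y i ≠ 0) ⊂
        (Finset.univ.filter fun i => y i + z' i ≠ 0) := by
      rw [Finset.ssubset_iff_of_subset]
      · refine ⟨i0.1, ?_, ?_⟩
        · simp only [Finset.mem_filter, Finset.mem_univ, true_and]
          rw [hyU _ i0.2, zero_add, hz'1]
          exact hi0
        · simp only [Finset.mem_filter, Finset.mem_univ, true_and, not_not]
          exact hyU _ i0.2
      · intro i hi
        simp only [Finset.mem_filter, Finset.mem_univ, true_and] at hi ⊢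
        have : i ∉ U := fun hiU => hi (hyU i hiU)
        rw [hz'2 i this, add_zero]
        exact hi
    exact absurd (Finset.card_lt_card h3) (by omega)
  have hlt : R * k * U.card < Fintype.card ι := by
    refine lt_of_lt_of_le ?_ hcard
    exact Nat.mul_lt_mul_of_pos_left hUD (by positivity)
  obtain ⟨T, hT, hTU, hdet⟩ := GREEDYx.step k R ι c U hlt h
  have hTy : ∀ j, IsUnit (y (T j)) := by
    intro j
    rcases hy.1 (T j) with h1 | h1
    · exact absurd (by rw [hU]; simpa using h1) (hTU j)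
    · exact h1
  obtain ⟨ρ, hρ, hsum⟩ := exact_of_basis hk c y hy.2 T hT hTy hdet
  exact ⟨fun i => y i * ρ i, ⟨T ⟨0, hR⟩, (hTy _).mul (hρ _)⟩, hsum⟩

/-- solubility of all systems of `R` additive equations of degree `k` in `N` variables -/
def ASN (p : ℕ) [Fact p.Prime] (k R N : ℕ) : Prop :=
  ∀ (ι : Type) [Fintype ι] [DecidableEq ι], N ≤ Fintype.card ι →
    ∀ c : Fin R → ι → ℚ_[p], ∃ y : ι → ℚ_[p], y ≠ 0 ∧ ∀ m, ∑ i, c m i * y i ^ k = 0

theorem asn_of_sol {k R D : ℕ} (hk : 1 ≤ k) (hR : 1 ≤ R) (hD1 : 1 ≤ D)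
    (hD : ∀ (κ : Type) [Fintype κ], D ≤ Fintype.card κ → Sol p k R (gam p k) κ) :
    ASN p k R (R * k * D) := by
  intro ι _ _ hcard c
  have hNas : R ≤ R * k * D := by nlinarith [Nat.mul_pos hR hk, Nat.mul_pos (Nat.mul_pos hR hk) hD1]
  refine t_PERT p k R hk hR ι (hNas.trans hcard) ?_ c
  clear c
  intro c hc
  obtain ⟨g, ex, c', hg, hc', hlam⟩ := t_NORM p k R hk hR ι c (hNas.trans hcard) hc
  obtain ⟨y', ⟨i0, hi0⟩, hy'⟩ := exact_norm hk hR hD1 hD c' hcard hlam
  have hp0 : (p : ℚ_[p]) ≠ 0 := by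
    exact_mod_cast hp.out.ne_zero
  refine ⟨fun i => (p : ℚ_[p]) ^ ex i * (y' i : ℚ_[p]), ?_, ?_⟩
  · intro h0
    have h := congrFun h0 i0
    simp only [Pi.zero_apply, mul_eq_zero] at h
    rcases h with h | h
    · exact (zpow_ne_zero _ hp0) h
    · have : y' i0 = 0 := PadicInt.coe_eq_zero.1 h
      rw [this] at hi0
      exact not_isUnit_zero hi0
  · -- the vector of values is killed by `g`
    set w : Fin R → ℚ_[p] := fun l => ∑ i, c l i * ((p : ℚ_[p]) ^ ex i * (y' i : ℚ_[p])) ^ k with hw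
    have hgw : g.mulVec w = 0 := by
      funext m
      have h5 : ∑ i, ((c' m i : ℤ_[p]) : ℚ_[p]) * (y' i : ℚ_[p]) ^ k = 0 := by
        have h6 := congrArg (fun x : ℤ_[p] => (x : ℚ_[p])) (hy' m)
        simpa only [PadicInt.coe_sum, PadicInt.coe_mul, PadicInt.coe_pow, PadicInt.coe_zero] using h6
      simp only [Matrix.mulVec, dotProduct, Pi.zero_apply, hw]
      rw [← h5]
      calc ∑ l, g m l * ∑ i, c l i * ((p : ℚ_[p]) ^ ex i * (y' i : ℚ_[p])) ^ k
          = ∑ l, ∑ i, g m l * (c l i * ((p : ℚ_[p]) ^ ex i * (y' i : ℚ_[p])) ^ k) := by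
            exact Finset.sum_congr rfl fun l _ => Finset.mul_sum _ _ _
        _ = ∑ i, ∑ l, g m l * (c l i * ((p : ℚ_[p]) ^ ex i * (y' i : ℚ_[p])) ^ k) :=
            Finset.sum_comm
        _ = ∑ i, ((c' m i : ℤ_[p]) : ℚ_[p]) * (y' i : ℚ_[p]) ^ k := by
            refine Finset.sum_congr rfl fun i _ => ?_
            rw [hc' m i, Finset.sum_mul]
            refine Finset.sum_congr rfl fun l _ => ?_
            rw [mul_pow]
            ring
    have hw0 : w = 0 := by
      have hinj := Matrix.mulVec_injective_iff_isUnit.2 ((Matrix.isUnit_iff_isUnit_det g).2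
        (isUnit_iff_ne_zero.2 hg))
      apply hinj
      rw [hgw, Matrix.mulVec_zero]
    intro m
    exact congrFun hw0 m

/-- `R` additive equations of degree `k`: `2 R ^ 2 k ^ 3` variables suffice. -/
theorem asn_gen {k R : ℕ} (hk : 1 ≤ k) (hR : 1 ≤ R) : ASN p k R (2 * R ^ 2 * k ^ 3) := by
  have h := asn_of_sol (p := p) (D := 2 * R * k ^ 2) hk hR (by
    have : 0 < 2 * R * k ^ 2 := by positivity
    exact this) (fun κ _ hκ => sol_gen hk hR hκ)
  have e : R * k * (2 * R * k ^ 2) = 2 * R ^ 2 * k ^ 3 := by ring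
  rwa [e] at h

/-- One additive equation of degree `k`: `4 k ^ 2` variables suffice. -/
theorem asn_one {k : ℕ} (hk : 1 ≤ k) : ASN p k 1 (4 * k ^ 2) := by
  have h := asn_of_sol (p := p) (D := 4 * k) hk le_rfl (by omega)
    (fun κ _ hκ => sol_one hk hκ)
  have e : 1 * k * (4 * k) = 4 * k ^ 2 := by ring
  rwa [e] at h

/-- `4 k` variables suffice for one equation with unit coefficients. -/
theorem unit_form {k : ℕ} (hk : 1 ≤ k) {ι : Type} [Fintype ι] (h : 4 * k ≤ Fintype.card ι)
    (a : ι → ℤ_[p]) (ha : ∀ i, IsUnit (a i)) : ∃ y : ι → ℤ_[p], y ≠ 0 ∧ ∑ i, a i * y i ^ k = 0 := by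
  obtain ⟨y, hy, ⟨i0, hi0⟩, hyc⟩ := sol_one (p := p) hk h (fun _ i => a i)
  have hu : IsUnit (y i0) := (hy i0).resolve_left hi0
  obtain ⟨ρ, hρ, hsum⟩ := exact_of_basis (R := 1) hk (fun _ i => a i) y hyc (fun _ => i0)
    (fun i j _ => Subsingleton.elim i j) (fun _ => hu) (by
      rw [Matrix.det_fin_one]
      exact ha i0)
  refine ⟨fun i => y i * ρ i, ?_, hsum 0⟩
  intro h0
  have := congrFun h0 i0
  simp only [Pi.zero_apply] at this
  have h2 := hu.mul (hρ i0)
  rw [this] at h2
  exact not_isUnit_zero h2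

end Pool.Agent.KS6_15.HP
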