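import Mathlib
import Pool.Agent.KS6_15.HP.Exact
import Pool.Graph.R_pool_sql_team_seeded_620a6dc7.helper132_hp_.T_EVEN
import Pool.Graph.R_pool_sql_team_seeded_620a6dc7.helper132_hp_.HDefs

/-!
# Even `k`: the Hasse principle fails for every `s ≥ 8 k + 2`
-/

set_option autoImplicit false

namespace Pool.Agent.KS6_15.HP

open Finset Pool.Agent.helper132_hp EVENx

lemma FF_eq_Fm (K : Type) [Field K] [CharZero K] {s : ℕ} (k : ℕ) (y : Fin s → K) :
    FF K (AA ℚ s) k y = Fm (AA K s) k y := by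
  unfold FF Fm
  refine Finset.sum_congr rfl fun i _ => Finset.sum_congr rfl fun j _ => ?_
  have h := congrFun (congrFun (AA_map (Rat.castHom K) s) i) j
  rw [Matrix.map_apply] at h
  rw [← h]
  rfl

lemma FF_nonneg {k : ℕ} (hk : Even k) (t : ℕ) (y : Fin (t + 3) → ℝ) :
    0 ≤ FF ℝ (AA ℚ (t + 3)) k y := by
  rw [FF_eq_Fm, Fm_AA]
  have hpos : ∀ i, 0 ≤ y i ^ k := fun i => hk.pow_nonneg _
  have h1 : 0 ≤ (y 0 ^ k - 2 * y 1 ^ k) ^ 2 := sq_nonneg _
  have h2 : 0 ≤ 2 * y 0 ^ k * y 2 ^ k := mul_nonneg (mul_nonneg (by norm_num) (hpos 0)) (hpos 2)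
  have h3 : 0 ≤ ∑ i : Fin (t + 1), (y i.succ.succ ^ k) ^ 2 :=
    Finset.sum_nonneg fun i _ => sq_nonneg _
  linarith

/-- the real zero -/
lemma real_zero {k : ℕ} (hk0 : k ≠ 0) (t : ℕ) : HasZero ℝ (AA ℚ (t + 3)) k := by
  refine ⟨fun i => if i = 0 then (2:ℝ) ^ ((1:ℝ) / k) else if i = 1 then 1 else 0, ?_, ?_⟩
  · intro h
    have h1 := congrFun h 1
    simp at h1
  · rw [FF_eq_Fm, Fm_AA]
    have e0 : ((2:ℝ) ^ ((1:ℝ) / k)) ^ k = 2 := by
      rw [← Real.rpow_natCast, ← Real.rpow_mul (by norm_num), one_div,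
        inv_mul_cancel₀ (by exact_mod_cast hk0), Real.rpow_one]
    have hmod : 2 % (t + 3) = 2 := Nat.mod_eq_of_lt (by omega)
    have h20 : (2 : Fin (t + 3)) ≠ 0 := by
      intro h; have := congrArg Fin.val h; simp [hmod] at this
    have h21 : (2 : Fin (t + 3)) ≠ 1 := by
      intro h; have := congrArg Fin.val h; simp [hmod] at this
    have h10 : (1 : Fin (t + 3)) ≠ 0 := by
      intro h; have := congrArg Fin.val h; simp at this
    rw [Finset.sum_eq_zero]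
    · simp only [if_true, h10, if_false, h20, h21, e0, one_pow, zero_pow hk0]
      norm_num
    · intro i _
      have h3 : (i.succ.succ : Fin (t + 3)) ≠ 0 := Fin.succ_ne_zero _
      have h4 : (i.succ.succ : Fin (t + 3)) ≠ 1 := by
        intro h; have := congrArg Fin.val h; simp at this
      simp only [h3, h4, if_false, zero_pow hk0]
      norm_num

/-- no rational zero -/
lemma no_rat_zero {k : ℕ} (hk : Even k) (hk0 : k ≠ 0) (t : ℕ) : ¬ HasZero ℚ (AA ℚ (t + 3)) k := by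
  rintro ⟨y, hy0, hy⟩
  rw [FF_eq_Fm, Fm_AA] at hy
  have hpos : ∀ i, 0 ≤ y i ^ k := fun i => hk.pow_nonneg _
  have h1 : 0 ≤ (y 0 ^ k - 2 * y 1 ^ k) ^ 2 := sq_nonneg _
  have h2 : 0 ≤ 2 * y 0 ^ k * y 2 ^ k := mul_nonneg (mul_nonneg (by norm_num) (hpos 0)) (hpos 2)
  have h3 : ∀ i ∈ (univ : Finset (Fin (t + 1))), 0 ≤ (y i.succ.succ ^ k) ^ 2 :=
    fun i _ => sq_nonneg _
  have h4 := Finset.sum_nonneg h3
  have h5 : ∑ i : Fin (t + 1), (y i.succ.succ ^ k) ^ 2 = 0 := by linarith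
  have h6 : (y 0 ^ k - 2 * y 1 ^ k) ^ 2 = 0 := by linarith
  have h7 : y 0 ^ k = 2 * y 1 ^ k := by
    have := pow_eq_zero_iff (two_ne_zero) |>.mp h6
    linarith
  have h8 : ∀ i : Fin (t + 1), y i.succ.succ = 0 := by
    intro i
    have := (Finset.sum_eq_zero_iff_of_nonneg h3).mp h5 i (mem_univ i)
    exact pow_eq_zero_iff hk0 |>.mp (pow_eq_zero_iff two_ne_zero |>.mp this)
  by_cases hy1 : y 1 = 0
  · have hy00 : y 0 = 0 := by
      rw [hy1, zero_pow hk0, mul_zero] at h7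
      exact pow_eq_zero_iff hk0 |>.mp h7
    apply hy0
    funext i
    refine Fin.cases ?_ (fun i => ?_) i
    · exact hy00
    · refine Fin.cases ?_ (fun i => ?_) i
      · exact hy1
      · exact h8 i
  · obtain ⟨m, hm⟩ := hk
    have h9 : ((y 0 / y 1) ^ m) ^ 2 = 2 := by
      rw [← pow_mul, mul_two, ← hm, div_pow, h7]
      field_simp
    have h10 : ((((y 0 / y 1) ^ m : ℚ) : ℝ)) ^ 2 = 2 := by exact_mod_cast h9
    have h11 : Real.sqrt 2 = |(((y 0 / y 1) ^ m : ℚ) : ℝ)| := by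
      rw [← h10, Real.sqrt_sq_eq_abs]
    apply irrational_sqrt_two
    exact ⟨|(y 0 / y 1) ^ m|, by rw [h11]; push_cast; rfl⟩

/-- the nonsingular `p`-adic zero -/
lemma padic_zero_even (p : ℕ) [hp : Fact p.Prime] {k : ℕ} (hk : 1 ≤ k) (t : ℕ)
    (ht : 8 * k ≤ t + 1) : ∃ y : Fin (t + 3) → ℚ_[p], FF ℚ_[p] (AA ℚ (t + 3)) k y = 0 ∧
      ∃ l, y l ^ (k - 1) * ∑ j, ((AA ℚ (t + 3)) l j : ℚ_[p]) * y j ^ k ≠ 0 := by
  have hk0 : k ≠ 0 := by omega
  obtain ⟨z, hz0, hz⟩ := unit_form (p := p) (k := 2 * k) (by omega) (ι := Fin (t + 1))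
    (by rw [Fintype.card_fin]; omega) (fun _ => 1) (fun _ => isUnit_one)
  obtain ⟨l, hl⟩ := Function.ne_iff.1 hz0
  set φ : ℤ_[p] →+* ℚ_[p] := PadicInt.Coe.ringHom with hφ
  have hinj : ∀ x : ℤ_[p], φ x = 0 → x = 0 := fun x hx => PadicInt.ext hx
  let y : Fin (t + 3) → ℚ_[p] := Fin.cons 0 (Fin.cons 0 (fun i => φ (z i)))
  have y0 : y 0 = 0 := rfl
  have y1 : y 1 = 0 := rfl
  have yss : ∀ i : Fin (t + 1), y i.succ.succ = φ (z i) := fun i => rfl
  have hsum : ∑ i : Fin (t + 1), (y i.succ.succ ^ k) ^ 2 = 0 := by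
    have h1 := congrArg φ hz
    rw [map_sum, map_zero] at h1
    rw [← h1]
    refine Finset.sum_congr rfl fun i _ => ?_
    rw [yss, map_mul, map_pow, map_one, one_mul, ← pow_mul, mul_comm k 2]
  refine ⟨y, ?_, l.succ.succ, ?_⟩
  · rw [FF_eq_Fm, Fm_AA, y0, y1, hsum, zero_pow hk0]
    ring
  · have hzl : φ (z l) ≠ 0 := fun h => hl (hinj _ h)
    have hrow : ∑ j, ((AA ℚ (t + 3)) l.succ.succ j : ℚ_[p]) * y j ^ k = φ (z l) ^ k := by
      rw [Finset.sum_eq_single l.succ.succ]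
      · rw [yss]
        have : (AA ℚ (t + 3)) l.succ.succ l.succ.succ = 1 := by
          simp [AA, U, E]
        rw [this]
        simp
      · intro j _ hj
        by_cases hj0 : (j : ℕ) = 0
        · have : j = 0 := Fin.ext hj0
          rw [this, y0, zero_pow hk0, mul_zero]
        by_cases hj1 : (j : ℕ) = 1
        · have : j = 1 := Fin.ext (by simpa using hj1)
          rw [this, y1, zero_pow hk0, mul_zero]
        have : (AA ℚ (t + 3)) l.succ.succ j = 0 := by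
          simp [AA, U, E, hj0, hj1, Ne.symm hj]
        rw [this]
        simp
      · intro h
        exact absurd (mem_univ _) h
    rw [hrow, yss]
    exact mul_ne_zero (pow_ne_zero _ hzl) (pow_ne_zero _ hzl)

/-- for even `k` and every `s ≥ 8 k + 2` the Hasse principle fails -/
theorem even_new (k : ℕ) (hk : Even k) (hk2 : 2 ≤ k) (s : ℕ) (hs : 8 * k + 2 ≤ s) :
    ∃ A : Matrix (Fin s) (Fin s) ℚ, A.IsSymm ∧ A.det ≠ 0 ∧ HasZero ℝ A k ∧
      (∀ y : Fin s → ℝ, 0 ≤ FF ℝ A k y) ∧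
      (∀ (p : ℕ) [Fact p.Prime], ∃ y : Fin s → ℚ_[p], FF ℚ_[p] A k y = 0 ∧
        ∃ l, y l ^ (k - 1) * ∑ j, (A l j : ℚ_[p]) * y j ^ k ≠ 0) ∧
      ¬ HasZero ℚ A k := by
  obtain ⟨t, rfl⟩ : ∃ t, s = t + 3 := ⟨s - 3, by omega⟩
  exact ⟨AA ℚ (t + 3), AA_symm _, AA_det t, real_zero (by omega) t, FF_nonneg hk t,
    fun p _ => padic_zero_even p (by omega) t (by omega), no_rat_zero hk (by omega) t⟩

end Pool.Agent.KS6_15.HP
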