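import Mathlib
import Pool.Agent.KS6_15.HP.Exact
import Pool.Graph.R_pool_sql_team_seeded_620a6dc7.helper132_hp_.T_PAD

/-!
# Nonsingular `p`-adic zeros of `Q(y^k)`

The argument is that of the library module `T_PAD`, with the new bounds for additive systems.
-/

set_option autoImplicit false

namespace Pool.Agent.KS6_15.HP

open Finset Pool.Agent.helper132_hp

open PADx in
lemma AS_finset' {p : ℕ} [Fact p.Prime] {k R N : ℕ} (h : ASN p k R N) (hk : 1 ≤ k)
    {ι : Type} [Fintype ι] [DecidableEq ι] (B : Finset ι) (hB : N ≤ B.card)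
    (c : Fin R → ι → ℚ_[p]) : ∃ y : ι → ℚ_[p], y ≠ 0 ∧ (∀ l, y l ≠ 0 → l ∈ B) ∧
      ∀ m, ∑ l, c m l * y l ^ k = 0 := by
  obtain ⟨y, hy, hs⟩ := h {l // l ∈ B} (by simpa using hB) (fun m l => c m l)
  refine ⟨fun l => if hl : l ∈ B then y ⟨l, hl⟩ else 0, ?_, ?_, ?_⟩
  · intro h0
    apply hy
    funext l
    have := congrFun h0 l
    simpa using this
  · intro l hl
    by_contra hn
    exact hl (by simp [hn])
  · intro m
    refine Eq.trans ?_ (hs m)
    rw [Finset.univ_eq_attach]
    rw [← Finset.sum_subset (Finset.subset_univ B)]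
    · rw [← Finset.sum_attach B]
      refine Finset.sum_congr rfl fun l _ => ?_
      simp
    · intro l _ hl
      simp [hl, Nat.one_le_iff_ne_zero.mp hk]

open PADx Matrix in
/-- the family of vectors with disjoint supports and orthogonal powers. -/
lemma family' {p : ℕ} [Fact p.Prime] {k : ℕ} (hk : 1 ≤ k) {n0 N : ℕ} (hN : 0 < N)
    (h : ASN p k n0 N) (s : ℕ) (hs : n0 * N ≤ s) (A : Matrix (Fin s) (Fin s) ℚ_[p]) (hA : A.IsSymm) :
    ∃ z : Fin n0 → Fin s → ℚ_[p], (∀ j, z j ≠ 0) ∧ (∀ i j l, z i l ≠ 0 → z j l ≠ 0 → i = j) ∧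
      (∀ i j, i ≠ j → pw k (z i) ⬝ᵥ A *ᵥ pw k (z j) = 0) := by
  have key : ∀ n ≤ n0, ∃ z : ℕ → Fin s → ℚ_[p], (∀ j < n, z j ≠ 0) ∧
      (∀ j l, z j l ≠ 0 → l.val / N = j) ∧
      (∀ i < n, ∀ j < i, pw k (z i) ⬝ᵥ A *ᵥ pw k (z j) = 0) := by
    intro n
    induction n with
    | zero =>
      intro _
      exact ⟨fun _ _ => 0, by simp, by simp, by simp⟩
    | succ n ih =>
      intro hn
      obtain ⟨z, hz1, hz2, hz3⟩ := ih (by omega)
      have hcard : N ≤ (Finset.univ.filter fun l : Fin s => l.val / N = n).card := by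
        have hb : ∀ a < N, n * N + a < s := by
          intro a ha
          have : (n + 1) * N ≤ n0 * N := Nat.mul_le_mul_right _ hn
          nlinarith
        have : (Finset.univ : Finset (Fin (N))).card ≤
            (Finset.univ.filter fun l : Fin s => l.val / N = n).card := by
          refine Finset.card_le_card_of_injOn (fun a => ⟨n * N + a.val, hb a.val a.isLt⟩)
            ?_ ?_
          · intro a _
            simp only [Finset.coe_filter, Finset.mem_univ, true_and, Set.mem_ofPred_eq]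
            rw [Nat.mul_comm n, Nat.mul_add_div hN, Nat.div_eq_of_lt a.isLt, add_zero]
          · intro a _ b _ hab
            have := congrArg Fin.val hab
            simp only at this
            exact Fin.ext (by omega)
        simpa using this
      obtain ⟨y, hy, hyB, hyc⟩ := AS_finset' h hk
        (Finset.univ.filter fun l : Fin s => l.val / N = n) hcard
        (fun m l => if m.val < n then (A *ᵥ pw k (z m.val)) l else 0)
      refine ⟨Function.update z n y, ?_, ?_, ?_⟩
      · intro j hj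
        by_cases hjn : j = n
        · subst hjn; simpa using hy
        · rw [Function.update_of_ne hjn]
          exact hz1 j (by omega)
      · intro j l hl
        by_cases hjn : j = n
        · subst hjn
          rw [Function.update_self] at hl
          have := hyB l hl
          simpa using this
        · rw [Function.update_of_ne hjn] at hl
          exact hz2 j l hl
      · intro i hi j hj
        have hjn : j ≠ n := by omega
        rw [Function.update_of_ne hjn]
        by_cases hin : i = n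
        · subst hin
          rw [Function.update_self]
          have := hyc ⟨j, by omega⟩
          simp only [hj, if_true] at this
          rw [← this]
          unfold dotProduct
          refine Finset.sum_congr rfl fun l _ => ?_
          rw [mul_comm]
          rfl
        · rw [Function.update_of_ne hin]
          exact hz3 i (by omega) j hj
  obtain ⟨z, hz1, hz2, hz3⟩ := key n0 le_rfl
  refine ⟨fun j => z j.val, fun j => hz1 j.val j.isLt, ?_, ?_⟩
  · intro i j l hi hj
    exact Fin.ext ((hz2 i.val l hi).symm.trans (hz2 j.val l hj))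
  · intro i j hij
    rcases Nat.lt_or_ge j.val i.val with hlt | hge
    · exact hz3 i.val i.isLt j.val hlt
    · have hlt : i.val < j.val := lt_of_le_of_ne hge (fun hh => hij (Fin.ext hh))
      rw [dot_symm A hA]
      exact hz3 j.val j.isLt i.val hlt

open PADx Matrix in
lemma core' {p : ℕ} [Fact p.Prime] {k : ℕ} (hk : 1 ≤ k) {N1 N2 n0 N : ℕ} (hN : 0 < N)
    (h1 : ASN p (2 * k) 1 N1) (h2 : ASN p k 1 N2) (hn0 : n0 = N1 + N2) (h3 : ASN p k n0 N)
    (s : ℕ) (hs : n0 * N ≤ s)
    (A : Matrix (Fin s) (Fin s) ℚ_[p]) (hA : A.IsSymm) (hdet : A.det ≠ 0) :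
    ∃ y : Fin s → ℚ_[p], pw k y ⬝ᵥ A *ᵥ pw k y = 0 ∧ ∃ l, y l ≠ 0 ∧ (A *ᵥ pw k y) l ≠ 0 := by
  classical
  obtain ⟨z, hz, hd, ho⟩ := family' hk hN h3 s hs A hA
  set x : Fin n0 → Fin s → ℚ_[p] := fun j => pw k (z j) with hx
  have ho' : ∀ i j, i ≠ j → x i ⬝ᵥ A *ᵥ x j = 0 := ho
  set c : Fin n0 → ℚ_[p] := fun j => x j ⬝ᵥ A *ᵥ x j with hc
  have hcard : (Finset.univ.filter fun j => c j = 0).card +
      (Finset.univ.filter fun j => ¬ c j = 0).card = n0 := by
    have := Finset.card_filter_add_card_filter_not (s := (Finset.univ : Finset (Fin n0)))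
      (fun j => c j = 0)
    simpa using this
  by_cases hcase : N1 ≤ (Finset.univ.filter fun j => ¬ c j = 0).card
  · -- many nonzero diagonal values
    obtain ⟨t, ht, htB, htc⟩ := AS_finset' h1 (by omega)
      (Finset.univ.filter fun j => ¬ c j = 0) hcase (fun _ j => c j)
    obtain ⟨j, hj⟩ := Function.ne_iff.mp ht
    have hj' : t j ≠ 0 := hj
    have hcj : c j ≠ 0 := by simpa using htB j hj'
    have hw : ∀ (j : Fin n0) (l : Fin s), t j ≠ 0 → z j l ≠ 0 → (0 : Fin s → ℚ_[p]) l = 0 :=
      fun _ _ _ _ => rfl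
    have hpw0 : pw k (0 : Fin s → ℚ_[p]) = 0 := by
      funext l
      simp [pw, Nat.one_le_iff_ne_zero.mp hk]
    have hcomb := comb k hk z hd t 0 hw
    refine ⟨fun l => ∑ j, t j * z j l + (0 : Fin s → ℚ_[p]) l, ?_, ?_⟩
    · rw [hcomb, expand A hA x ho', hpw0]
      have := htc 0
      simp only [zero_dotProduct, mul_zero, Finset.sum_const_zero, add_zero]
      rw [← this]
      refine Finset.sum_congr rfl fun i _ => ?_
      rw [← pow_mul, mul_comm k 2]
      ring
    · have h1 : x j ⬝ᵥ A *ᵥ (pw k fun l => ∑ j, t j * z j l + (0 : Fin s → ℚ_[p]) l) ≠ 0 := by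
        rw [hcomb, dot_lin A x ho', hpw0]
        simp only [Matrix.mulVec_zero, dotProduct_zero, add_zero]
        exact mul_ne_zero (pow_ne_zero _ hj') hcj
      obtain ⟨l, hl1, hl2⟩ := nonsing A _ _ h1
      refine ⟨l, ?_, hl2⟩
      exact val_supp z hd t 0 hw j hj' l ((pw_ne k hk (z j) l).mp hl1)
  · have hZ : N2 ≤ (Finset.univ.filter fun j => c j = 0).card := by omega
    by_cases hb : ∃ i j : Fin n0, c i = 0 ∧ c j = 0 ∧ ∃ l, z i l ≠ 0 ∧ (A *ᵥ x j) l ≠ 0
    · obtain ⟨i, j, hi, hj, l, hl1, hl2⟩ := hb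
      by_cases hil : (A *ᵥ x i) l ≠ 0
      · exact ⟨z i, hi, l, hl1, hil⟩
      · push Not at hil
        have hij : i ≠ j := by
          rintro rfl
          exact hl2 hil
        have hzj : ∀ l, z i l ≠ 0 → z j l = 0 := by
          intro l hl
          by_contra hn
          exact hij (hd i j l hl hn)
        have hadd : pw k (z i + z j) = x i + x j := by
          funext m
          simp only [hx, pw, Pi.add_apply]
          by_cases hm : z i m = 0
          · simp [hm, Nat.one_le_iff_ne_zero.mp hk]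
          · simp [hzj m hm, Nat.one_le_iff_ne_zero.mp hk]
        refine ⟨z i + z j, ?_, l, ?_, ?_⟩
        · rw [hadd, Matrix.mulVec_add, dotProduct_add, add_dotProduct, add_dotProduct,
            ho' i j hij, ho' j i (Ne.symm hij)]
          have h1 : x i ⬝ᵥ A *ᵥ x i = 0 := hi
          have h2 : x j ⬝ᵥ A *ᵥ x j = 0 := hj
          rw [h1, h2]
          ring
        · rw [Pi.add_apply, hzj l hl1, add_zero]
          exact hl1
        · rw [hadd, Matrix.mulVec_add, Pi.add_apply, hil, zero_add]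
          exact hl2
    · push Not at hb
      have hg : ∀ j ∈ (Finset.univ.filter fun j => c j = 0), ∃ l, (A *ᵥ x j) l ≠ 0 := by
        intro j _
        by_contra hcon
        push Not at hcon
        have h1 : A *ᵥ x j = 0 := funext hcon
        have h2 : x j = 0 := Matrix.eq_zero_of_mulVec_eq_zero hdet h1
        obtain ⟨l, hl⟩ := Function.ne_iff.mp (hz j)
        exact (pw_ne k hk (z j) l).mpr hl (congrFun h2 l)
      obtain ⟨w0, hw0⟩ := choose_w k hk (Finset.univ.filter fun j => c j = 0)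
        (fun j => A *ᵥ x j) hg
      set w : Fin s → ℚ_[p] := fun l => if ∃ i, c i = 0 ∧ z i l ≠ 0 then 0 else w0 l with hwdef
      set lam : Fin n0 → ℚ_[p] := fun j => pw k w ⬝ᵥ A *ᵥ x j with hlam
      have hlam0 : ∀ j, c j = 0 → lam j ≠ 0 := by
        intro j hj
        have h1 := hw0 j (by simpa using hj)
        have h2 : lam j = ∑ l, (A *ᵥ x j) l * w0 l ^ k := by
          simp only [hlam, dotProduct]
          refine Finset.sum_congr rfl fun l _ => ?_
          by_cases hl : ∃ i, c i = 0 ∧ z i l ≠ 0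
          · obtain ⟨i, hi, hil⟩ := hl
            rw [hb i j hi hj l hil]
            ring
          · have : w l = w0 l := by simp only [hwdef, if_neg hl]
            unfold pw
            rw [this, mul_comm]
        rw [h2]
        exact h1
      obtain ⟨t, ht, htB, htc⟩ := AS_finset' h2 hk
        (Finset.univ.filter fun j => c j = 0) hZ (fun _ j => lam j)
      obtain ⟨j0, hj0⟩ := Function.ne_iff.mp ht
      have hj0' : t j0 ≠ 0 := hj0
      have hcj0 : c j0 = 0 := by simpa using htB j0 hj0'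
      have hl0 := hlam0 j0 hcj0
      set f : ℚ_[p] := pw k w ⬝ᵥ A *ᵥ pw k w with hf
      have hk0 : (k : ℚ_[p]) ≠ 0 := Nat.cast_ne_zero.mpr (by omega)
      obtain ⟨M, hM⟩ := small p k hk (-f / (2 * lam j0 * t j0 ^ k)) (‖(k : ℚ_[p])‖ ^ 2)
        (by positivity)
      set δ : ℚ_[p] := -f / (2 * lam j0 * t j0 ^ k) * ((p : ℚ_[p]) ^ M) ^ k with hδ
      obtain ⟨r, hr⟩ := near_one p k δ hM
      have hp0 : (p : ℚ_[p]) ^ M ≠ 0 :=
        pow_ne_zero _ (Nat.cast_ne_zero.mpr (Fact.out : p.Prime).ne_zero)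
      have hr0 : r ≠ 0 := by
        rintro rfl
        rw [zero_pow (by omega)] at hr
        have h1 : δ = -1 := by linear_combination -hr
        rw [h1, norm_neg, norm_one] at hM
        have h2 : ‖(k : ℚ_[p])‖ ≤ 1 := by
          have := PadicInt.norm_le_one (p := p) (k : ℤ_[p])
          rwa [PadicInt.norm_def, PadicInt.coe_natCast] at this
        have h3 : 0 ≤ ‖(k : ℚ_[p])‖ := norm_nonneg _
        nlinarith
      set t' : Fin n0 → ℚ_[p] := fun j => ((p : ℚ_[p]) ^ M)⁻¹ * t j * (if j = j0 then r else 1)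
        with ht'
      have htj0 : t' j0 ≠ 0 := by
        simp only [ht', if_true]
        exact mul_ne_zero (mul_ne_zero (inv_ne_zero hp0) hj0') hr0
      have htz : ∀ j, t' j ≠ 0 → c j = 0 := by
        intro j hj
        have : t j ≠ 0 := right_ne_zero_of_mul (left_ne_zero_of_mul hj)
        simpa using htB j this
      have hw : ∀ (j : Fin n0) (l : Fin s), t' j ≠ 0 → z j l ≠ 0 → w l = 0 := by
        intro j l hj hl
        simp only [hwdef]
        rw [if_pos ⟨j, htz j hj, hl⟩]
      have hcomb := comb k hk z hd t' w hw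
      have hpk : ∀ j, t' j ^ k = (((p : ℚ_[p]) ^ M) ^ k)⁻¹ *
          (t j ^ k + if j = j0 then t j0 ^ k * δ else 0) := by
        intro j
        simp only [ht']
        by_cases hj : j = j0
        · subst hj
          simp only [if_true]
          rw [mul_pow, mul_pow, hr, inv_pow]
          ring
        · simp only [if_neg hj]
          rw [mul_one, mul_pow, inv_pow, add_zero]
      refine ⟨fun l => ∑ j, t' j * z j l + w l, ?_, ?_⟩
      · rw [hcomb, expand A hA x ho']
        have h1 : ∑ j, (t' j ^ k) ^ 2 * (x j ⬝ᵥ A *ᵥ x j) = 0 := by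
          refine Finset.sum_eq_zero fun j _ => ?_
          by_cases hj : t' j = 0
          · rw [hj, zero_pow (by omega)]
            ring
          · have : x j ⬝ᵥ A *ᵥ x j = 0 := htz j hj
            rw [this, mul_zero]
        have h2 : ∑ j, t' j ^ k * (pw k w ⬝ᵥ A *ᵥ x j) =
            (((p : ℚ_[p]) ^ M) ^ k)⁻¹ * (t j0 ^ k * δ * lam j0) := by
          have h3 : ∀ j, t' j ^ k * (pw k w ⬝ᵥ A *ᵥ x j) = (((p : ℚ_[p]) ^ M) ^ k)⁻¹ *
            (lam j * t j ^ k) + (((p : ℚ_[p]) ^ M) ^ k)⁻¹ *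
              (if j = j0 then t j0 ^ k * δ * lam j0 else 0) := by
            intro j
            rw [hpk j]
            by_cases hj : j = j0
            · subst hj
              simp only [if_true, hlam]
              ring
            · simp only [if_neg hj, hlam]
              ring
          rw [Finset.sum_congr rfl fun j _ => h3 j, Finset.sum_add_distrib, ← Finset.mul_sum,
            ← Finset.mul_sum, htc 0]
          simp
        rw [h1, h2, ← hf, hδ]
        have hpMk : ((p : ℚ_[p]) ^ M) ^ k ≠ 0 := pow_ne_zero _ hp0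
        have htk : t j0 ^ k ≠ 0 := pow_ne_zero _ hj0'
        field_simp
        ring
      · have h1 : x j0 ⬝ᵥ A *ᵥ (pw k fun l => ∑ j, t' j * z j l + w l) ≠ 0 := by
          rw [hcomb, dot_lin A x ho', dot_symm A hA (x j0) (pw k w)]
          have : x j0 ⬝ᵥ A *ᵥ x j0 = 0 := hcj0
          rw [this, mul_zero, zero_add]
          exact hl0
        obtain ⟨l, hl1, hl2⟩ := nonsing A _ _ h1
        refine ⟨l, ?_, hl2⟩
        exact val_supp z hd t' w hw j0 htj0 l ((pw_ne k hk (z j0) l).mp hl1)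

open PADx Matrix in
/-- nonsingular `p`-adic zeros of `Q(y^k)` in `16000 k^9` variables -/
theorem pad_new (p : ℕ) [Fact p.Prime] (k : ℕ) (hk : 1 ≤ k) (s : ℕ) (hs : 16000 * k ^ 9 ≤ s)
    (A : Matrix (Fin s) (Fin s) ℤ) (hA : A.IsSymm) (hdet : A.det ≠ 0) :
    ∃ y : Fin s → ℤ_[p], MvPolynomial.aeval y (G1 A k) = 0 ∧
      ∃ l, MvPolynomial.aeval y (MvPolynomial.pderiv l (G1 A k)) ≠ 0 := by
  set A' : Matrix (Fin s) (Fin s) ℚ_[p] := A.map (Int.cast) with hA'
  have hA's : A'.IsSymm := by
    ext i j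
    simp only [hA', Matrix.transpose_apply, Matrix.map_apply]
    rw [hA.apply]
  have hdet' : A'.det ≠ 0 := by
    have : A'.det = ((A.det : ℤ) : ℚ_[p]) := by
      rw [hA']
      exact (Int.cast_det A).symm
    rw [this]
    exact_mod_cast hdet
  obtain ⟨y, hy, l, hl1, hl2⟩ := core' (p := p) (n0 := 20 * k ^ 2) hk
    (N := 2 * (20 * k ^ 2) ^ 2 * k ^ 3) (by positivity) (asn_one (by omega)) (asn_one hk) (by ring)
    (asn_gen hk (by nlinarith [Nat.mul_pos hk hk])) s (by
      refine le_trans (le_of_eq ?_) hs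
      ring) A' hA's hdet'
  obtain ⟨M, hM⟩ := bounded p y
  have hp0 : (p : ℚ_[p]) ^ M ≠ 0 :=
    pow_ne_zero _ (Nat.cast_ne_zero.mpr (Fact.out : p.Prime).ne_zero)
  set φ : ℤ_[p] →+* ℚ_[p] := PadicInt.Coe.ringHom with hφ
  obtain ⟨Y, hY⟩ : ∃ Y : Fin s → ℤ_[p], ∀ l, φ (Y l) = (p : ℚ_[p]) ^ M * y l :=
    ⟨fun l => ⟨(p : ℚ_[p]) ^ M * y l, hM l⟩, fun l => rfl⟩
  refine ⟨Y, ?_, l, ?_⟩
  · rw [aeval_G1]
    have hinj : ∀ x : ℤ_[p], φ x = 0 → x = 0 := fun x hx => PadicInt.ext hx
    apply hinj
    have h0 : φ (∑ i, ∑ j, (A i j : ℤ_[p]) * Y i ^ k * Y j ^ k) =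
        ∑ i, ∑ j, (A i j : ℚ_[p]) * ((p : ℚ_[p]) ^ M * y i) ^ k *
        ((p : ℚ_[p]) ^ M * y j) ^ k := by
      rw [map_sum]
      refine Finset.sum_congr rfl fun i _ => ?_
      rw [map_sum]
      refine Finset.sum_congr rfl fun j _ => ?_
      rw [map_mul, map_mul, map_pow, map_pow, map_intCast, hY, hY]
    rw [h0]
    have h1 : ∑ i, ∑ j, (A i j : ℚ_[p]) * ((p : ℚ_[p]) ^ M * y i) ^ k *
        ((p : ℚ_[p]) ^ M * y j) ^ k = ((p : ℚ_[p]) ^ M) ^ (2 * k) *
          (pw k y ⬝ᵥ A' *ᵥ pw k y) := by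
      simp only [dotProduct, Matrix.mulVec, Finset.mul_sum, hA', Matrix.map_apply, pw]
      refine Finset.sum_congr rfl fun i _ => Finset.sum_congr rfl fun j _ => ?_
      rw [mul_pow, mul_pow, mul_comm 2 k, pow_mul]
      ring
    rw [h1, hy, mul_zero]
  · rw [aeval_pderiv_G1 A hA]
    intro h0
    have h2 := congrArg φ h0
    rw [map_mul, map_mul, map_mul, map_pow, map_sum, map_zero, map_natCast, hY] at h2
    have h3 : ∀ j, φ ((A l j : ℤ_[p]) * Y j ^ k) =
        (A l j : ℚ_[p]) * ((p : ℚ_[p]) ^ M * y j) ^ k := by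
      intro j
      rw [map_mul, map_pow, map_intCast, hY]
    rw [Finset.sum_congr rfl fun j _ => h3 j, map_ofNat] at h2
    have h1 : ∑ j, (A l j : ℚ_[p]) * ((p : ℚ_[p]) ^ M * y j) ^ k = ((p : ℚ_[p]) ^ M) ^ k *
          (A' *ᵥ pw k y) l := by
      simp only [dotProduct, Matrix.mulVec, Finset.mul_sum, hA', Matrix.map_apply, pw]
      refine Finset.sum_congr rfl fun j _ => ?_
      rw [mul_pow]
      ring
    rw [h1] at h2
    have hk0 : (k : ℚ_[p]) ≠ 0 := Nat.cast_ne_zero.mpr (by omega)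
    refine absurd h2 (mul_ne_zero (mul_ne_zero (mul_ne_zero two_ne_zero hk0)
      (pow_ne_zero _ (mul_ne_zero hp0 hl1))) (mul_ne_zero (pow_ne_zero _ hp0) hl2))

end Pool.Agent.KS6_15.HP
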