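import Mathlib
import Pool.Agent.KS6_15.HP.Pad
import Pool.Graph.R_pool_sql_team_seeded_620a6dc7.helper132_hp_.T_FIN

/-!
# Assembly for integer matrices

The argument is that of the library module `T_FIN`; the `p`-adic zeros come from `pad_new`.
-/

set_option autoImplicit false

namespace Pool.Agent.KS6_15.HP

open Finset MvPolynomial Pool.Agent.helper132_hp

open FINx in
/-- the main theorem for integer matrices. -/
theorem fin_new (hDICH : S_DICH) (hC1 : S_C1) (hC2 : S_C2) (hHEN : S_HEN) (hACM : S_ACM)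
    (k : ℕ) (hk : 1 ≤ k) (s : ℕ) (hs2 : t1 k + 4 * r1 k ≤ s)
    (A : Matrix (Fin s) (Fin s) ℤ) (hA : A.IsSymm) (hdet : A.det ≠ 0)
    (hy : ∃ y : Fin s → ℝ, aeval y (G1 A k) = 0 ∧ ∃ l, aeval y (pderiv l (G1 A k)) ≠ 0) :
    ∃ y : Fin s → ℤ, y ≠ 0 ∧ eval y (G1 A k) = 0 := by
  have hs1 : 16000 * k ^ 9 ≤ s := by
    refine le_trans ?_ hs2
    unfold t1
    have h1 : k ^ 9 ≤ k ^ 10 := Nat.pow_le_pow_right hk (by norm_num)
    omega
  obtain ⟨y, hy0, l, hyl⟩ := hy
  obtain ⟨i0, hi0⟩ := y_ne_zero A k hk y l hyl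
  obtain ⟨t, ht⟩ : ∃ t : ℝ, t = 2 / |y i0| := ⟨_, rfl⟩
  have hyabs : 0 < |y i0| := abs_pos.2 hi0
  have ht0 : 0 < t := by rw [ht]; positivity
  have hbig : 1 < |t * y i0| := by
    rw [abs_mul, abs_of_pos ht0, ht, div_mul_cancel₀ _ hyabs.ne']
    norm_num
  rcases hDICH s (r1 k) A hdet with ⟨I, J, hI, hJ, hIJ, hd⟩ | ⟨Λ, P, Q, K, hΛ, hK, hP, hQ⟩
  · -- first case
    obtain ⟨a, ha⟩ : ∃ a : Fin s → ℤ, a = fun i => lo (t * y i) := ⟨_, rfl⟩
    obtain ⟨b, hb⟩ : ∃ b : Fin s → ℤ, b = fun i => hi (t * y i) := ⟨_, rfl⟩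
    have hab : ∀ i, a i < b i := by intro i; rw [ha, hb]; exact lo_lt_hi _
    have hcr := hC1 k hk s A hA I J hI hJ hIJ hd a b hab
    have hrs : RealSm (G1 A k) a b := by
      refine ⟨fun i => t * y i, fun i => ?_, ?_, l, ?_⟩
      · rw [ha, hb]; exact ⟨lo_lt _, lt_hi _⟩
      · rw [scale_eval, hy0, mul_zero]
      · rw [scale_pderiv]
        exact mul_ne_zero (by positivity) hyl
    have hpd : PDens (G1 A k) := by
      intro p hp
      haveI : Fact p.Prime := ⟨hp⟩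
      obtain ⟨z, hz0, hz1⟩ := pad_new p k hk s hs1 A hA hdet
      exact hHEN (Fin s) (G1 A k) p z hz0 hz1
    obtain ⟨j0, hj0⟩ := hACM (Fin s) (G1 A k) (2 * k) (by omega) (homog_G1 A k) a b hab hcr hrs hpd
    obtain ⟨z, hz, hz0⟩ := hj0 j0 le_rfl
    refine ⟨z, ?_, hz0⟩
    intro h
    unfold Pool.Agent.helper132_hp.box at hz
    rw [Fintype.mem_piFinset] at hz
    have h1 := Finset.mem_Ico.1 (hz i0)
    rw [ha, hb] at h1
    exact ne_zero_of_mem (t * y i0) hbig j0 (z i0) h1.1 h1.2 (by rw [h]; rfl)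
  · -- second case
    obtain ⟨A', hA'⟩ : ∃ A' : Matrix (Fin s) (Fin s) ℤ, A' = Λ • A := ⟨_, rfl⟩
    have hA'a : ∀ i j, A' i j = Λ * A i j := by intro i j; rw [hA']; rfl
    have hA's : A'.IsSymm := by rw [hA']; exact hA.smul Λ
    have hA'd : A'.det ≠ 0 := by
      rw [hA', Matrix.det_smul]
      exact mul_ne_zero (pow_ne_zero _ hΛ) hdet
    obtain ⟨a, ha⟩ : ∃ a : Fin s ⊕ Fin s → ℤ, a = Sum.elim (fun _ => 1) (fun i => lo (t * y i)) := ⟨_, rfl⟩
    obtain ⟨b, hb⟩ : ∃ b : Fin s ⊕ Fin s → ℤ, b = Sum.elim (fun _ => 3) (fun i => hi (t * y i)) := ⟨_, rfl⟩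
    have hab : ∀ i, a i < b i := by
      intro i
      rw [ha, hb]
      rcases i with i | i
      · simp
      · exact lo_lt_hi _
    have hcr : Crude (G2 A' k) (4 * k) a b := by
      refine hC2 k hk s A' P Q K (by omega) ?_ ?_ a b hab
      · intro i hi j hj hij; rw [hA'a]; exact hP i hi j hj hij
      · intro i hi; rw [hA'a]; exact hQ i hi
    have hval : ∀ w : Fin s → ℝ, aeval w (G1 A' k) = Λ * aeval w (G1 A k) := by
      intro w
      rw [aeval_G1, aeval_G1, Finset.mul_sum]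
      refine Finset.sum_congr rfl fun i _ => ?_
      rw [Finset.mul_sum]
      refine Finset.sum_congr rfl fun j _ => ?_
      rw [hA'a]; push_cast; ring
    have hder : ∀ w : Fin s → ℝ, aeval w (pderiv l (G1 A' k)) = Λ * aeval w (pderiv l (G1 A k)) := by
      intro w
      rw [aeval_pderiv_G1, aeval_pderiv_G1]
      have h1 : ∑ j, (A' l j : ℝ) * w j ^ k = Λ * ∑ j, (A l j : ℝ) * w j ^ k := by
        rw [Finset.mul_sum]
        refine Finset.sum_congr rfl fun j _ => by rw [hA'a]; push_cast; ring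
      have h2 : ∑ j, (A' j l : ℝ) * w j ^ k = Λ * ∑ j, (A j l : ℝ) * w j ^ k := by
        rw [Finset.mul_sum]
        refine Finset.sum_congr rfl fun j _ => by rw [hA'a]; push_cast; ring
      rw [h1, h2]
      ring
    have hΛR : (Λ : ℝ) ≠ 0 := by exact_mod_cast hΛ
    have hrs : RealSm (G2 A' k) a b := by
      refine ⟨Sum.elim (fun _ => 2) (fun i => t * y i), fun i => ?_, ?_, Sum.inr l, ?_⟩
      · rw [ha, hb]
        rcases i with i | i
        · simp only [Sum.elim_inl]; norm_num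
        · exact ⟨lo_lt _, lt_hi _⟩
      · rw [aeval_G2]
        simp only [Sum.elim_inl, Sum.elim_inr]
        rw [scale_eval, scale_eval, hval, hy0]
        ring
      · rw [aeval_pderiv_G2 A' k hk]
        simp only [Sum.elim_inl, Sum.elim_inr]
        rw [scale_pderiv, scale_pderiv, hder]
        have : (0 : ℝ) < 2 ^ (k - 1) * 2 ^ k := by positivity
        have h2 : (0 : ℝ) < t ^ (k - 1) * t ^ k := by positivity
        exact mul_ne_zero (by norm_num) (mul_ne_zero this.ne' (mul_ne_zero h2.ne' (mul_ne_zero hΛR hyl)))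
    have hpd : PDens (G2 A' k) := by
      intro p hp
      haveI : Fact p.Prime := ⟨hp⟩
      obtain ⟨z, hz0, l', hz1⟩ := pad_new p k hk s hs1 A' hA's hA'd
      refine hHEN (Fin s ⊕ Fin s) (G2 A' k) p (Sum.elim (fun _ => 1) z) ?_ ⟨Sum.inr l', ?_⟩
      · rw [aeval_G2]
        simp only [Sum.elim_inl, Sum.elim_inr, one_mul]
        exact hz0
      · rw [aeval_pderiv_G2 A' k hk]
        simp only [Sum.elim_inl, Sum.elim_inr, one_mul]
        exact hz1
    obtain ⟨j0, hj0⟩ := hACM (Fin s ⊕ Fin s) (G2 A' k) (4 * k) (by omega) (homog_G2 A' k) a b hab hcr hrs hpd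
    obtain ⟨z, hz, hz0⟩ := hj0 j0 le_rfl
    unfold Pool.Agent.helper132_hp.box at hz
    rw [Fintype.mem_piFinset] at hz
    refine ⟨fun i => z (Sum.inl i) * z (Sum.inr i), ?_, ?_⟩
    · intro h
      have h1 := Finset.mem_Ico.1 (hz (Sum.inr i0))
      have h2 := Finset.mem_Ico.1 (hz (Sum.inl i0))
      rw [ha, hb] at h1 h2
      simp only [Sum.elim_inl, Sum.elim_inr] at h1 h2
      have h3 := ne_zero_of_mem (t * y i0) hbig j0 _ h1.1 h1.2
      have h4 : z (Sum.inl i0) ≠ 0 := by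
        have : (0 : ℤ) < 2 ^ j0 := by positivity
        omega
      have h5 := congrFun h i0
      simp only [Pi.zero_apply] at h5
      exact mul_ne_zero h4 h3 h5
    · have h1 : aeval z (G2 A' k) = (0 : ℤ) := by
        rw [← hz0]; rfl
      rw [aeval_G2] at h1
      have h2 : eval (fun i => z (Sum.inl i) * z (Sum.inr i)) (G1 A k) = aeval (fun i => z (Sum.inl i) * z (Sum.inr i)) (G1 A k) := rfl
      rw [h2]
      rw [aeval_G1] at h1 ⊢
      have h3 : Λ * (∑ i, ∑ j, ((A i j : ℤ) : ℤ) * (z (Sum.inl i) * z (Sum.inr i)) ^ k * (z (Sum.inl j) * z (Sum.inr j)) ^ k) = 0 := by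
        rw [← h1, Finset.mul_sum]
        refine Finset.sum_congr rfl fun i _ => ?_
        rw [Finset.mul_sum]
        refine Finset.sum_congr rfl fun j _ => ?_
        rw [hA'a]; push_cast; ring
      rcases mul_eq_zero.1 h3 with h4 | h4
      · exact absurd h4 hΛ
      · exact h4

end Pool.Agent.KS6_15.HP
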