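import Mathlib
import Pool.Agent.KS6_15.HP.Fin
import Pool.Graph.R_pool_sql_team_seeded_620a6dc7.helper132_hp_.T_TOP

/-!
# From integer matrices to rational matrices; thresholds
-/

set_option autoImplicit false

namespace Pool.Agent.KS6_15.HP

open Finset MvPolynomial Filter Topology Pool.Agent.helper132_hp

open TOPx

/-- the conclusion of `fin_new`. -/
def SFin : Prop := ∀ (k : ℕ), 1 ≤ k → ∀ (s : ℕ), t1 k + 4 * r1 k ≤ s →
    ∀ A : Matrix (Fin s) (Fin s) ℤ, A.IsSymm → A.det ≠ 0 →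
    (∃ y : Fin s → ℝ, aeval y (G1 A k) = 0 ∧ ∃ l, aeval y (pderiv l (G1 A k)) ≠ 0) →
    ∃ y : Fin s → ℤ, y ≠ 0 ∧ eval y (G1 A k) = 0

lemma smooth_new (hF : SFin) {s : ℕ} (k : ℕ) (hk : 1 ≤ k) (hs2 : t1 k + 4 * r1 k ≤ s)
    (A : Matrix (Fin s) (Fin s) ℚ) (hA : A.IsSymm) (hdet : A.det ≠ 0) (hy : SmoothReal A k) :
    HasZero ℚ A k := by
  obtain ⟨d, A', hd, hA'⟩ := exists_int A
  refine zero_of_int hd hA' k (hF k hk s hs2 A' (symm' hA' hA) (det' hd hA' hdet) ?_)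
  obtain ⟨y, hy0, l, hl⟩ := hy
  refine ⟨y, ?_, l, ?_⟩
  · rw [aeval_FF hA', hy0, mul_zero]
  · rw [aeval_pderiv_G1]
    have h1 : ∑ j, ((A' l j : ℤ) : ℝ) * y j ^ k = d * ∑ j, (A l j : ℝ) * y j ^ k := by
      rw [Finset.mul_sum]
      refine Finset.sum_congr rfl fun j _ => by rw [cast_K hA']; ring
    have h2 : ∑ j, ((A' j l : ℤ) : ℝ) * y j ^ k = d * ∑ j, (A l j : ℝ) * y j ^ k := by
      rw [Finset.mul_sum]
      refine Finset.sum_congr rfl fun j _ => by rw [cast_K hA', hA.apply l j]; ring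
    rw [h1, h2]
    have e : (k : ℝ) * y l ^ (k - 1) * (d * ∑ j, (A l j : ℝ) * y j ^ k) +
        k * y l ^ (k - 1) * (d * ∑ j, (A l j : ℝ) * y j ^ k) =
        (2 * k * d) * (y l ^ (k - 1) * ∑ j, (A l j : ℝ) * y j ^ k) := by ring
    rw [e]
    have hkR : (0 : ℝ) < k := by exact_mod_cast hk
    have hdR : (0 : ℝ) < d := by exact_mod_cast hd
    exact mul_ne_zero (by positivity) hl

lemma odd_new (hF : SFin) (hO : S_ODD) {s : ℕ} (k : ℕ) (hk : Odd k)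
    (hs2 : t1 k + 4 * r1 k ≤ s) (hs3 : 3 ≤ s)
    (A : Matrix (Fin s) (Fin s) ℚ) (hA : A.IsSymm) (hdet : A.det ≠ 0) (hR : HasZero ℝ A k) :
    HasZero ℚ A k := by
  obtain ⟨d, A', hd, hA'⟩ := exists_int A
  have hk1 : 1 ≤ k := hk.pos
  refine zero_of_int hd hA' k (hF k hk1 s hs2 A' (symm' hA' hA) (det' hd hA' hdet) ?_)
  refine hO k hk s hs3 A' (symm' hA' hA) (det' hd hA' hdet) ?_
  obtain ⟨y, hy, hy0⟩ := hR
  exact ⟨y, hy, by rw [aeval_FF hA', hy0, mul_zero]⟩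

/-- a nonsingular `p`-adic zero of the rational form -/
lemma padic_smooth (p : ℕ) [Fact p.Prime] {s : ℕ} (k : ℕ) (hk : 1 ≤ k) (hs : 16000 * k ^ 9 ≤ s)
    (A : Matrix (Fin s) (Fin s) ℚ) (hA : A.IsSymm) (hdet : A.det ≠ 0) :
    ∃ y : Fin s → ℚ_[p], FF ℚ_[p] A k y = 0 ∧
      ∃ l, y l ^ (k - 1) * ∑ j, (A l j : ℚ_[p]) * y j ^ k ≠ 0 := by
  obtain ⟨d, A', hd, hA'⟩ := exists_int A
  obtain ⟨y, hy0, l, hl⟩ := pad_new p k hk s hs A' (symm' hA' hA) (det' hd hA' hdet)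
  set φ : ℤ_[p] →+* ℚ_[p] := PadicInt.Coe.ringHom with hφ
  have hd0 : (d : ℚ_[p]) ≠ 0 := by exact_mod_cast (by omega : d ≠ 0)
  refine ⟨fun i => φ (y i), ?_, l, ?_⟩
  · have h1 := aeval_FF (K := ℚ_[p]) hA' k (fun i => φ (y i))
    have h2 : aeval (fun i => φ (y i)) (G1 A' k) = φ (aeval y (G1 A' k)) := by
      rw [PADx.aeval_G1, PADx.aeval_G1, map_sum]
      refine Finset.sum_congr rfl fun i _ => ?_
      rw [map_sum]
      refine Finset.sum_congr rfl fun j _ => ?_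
      rw [map_mul, map_mul, map_pow, map_pow, map_intCast]
    rw [h2, hy0, map_zero] at h1
    rcases mul_eq_zero.1 h1.symm with h3 | h3
    · exact absurd h3 hd0
    · exact h3
  · intro h0
    apply hl
    rw [PADx.aeval_pderiv_G1 A' (symm' hA' hA)]
    have hinj : ∀ x : ℤ_[p], φ x = 0 → x = 0 := fun x hx => PadicInt.ext hx
    apply hinj
    rw [map_mul, map_mul, map_mul, map_pow, map_sum, map_natCast, map_ofNat]
    have h1 : ∑ j, φ ((A' l j : ℤ_[p]) * y j ^ k) = d * ∑ j, (A l j : ℚ_[p]) * φ (y j) ^ k := by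
      rw [Finset.mul_sum]
      refine Finset.sum_congr rfl fun j _ => ?_
      rw [map_mul, map_pow, map_intCast, cast_K hA']; ring
    rw [h1]
    calc 2 * (k : ℚ_[p]) * φ (y l) ^ (k - 1) * (d * ∑ j, (A l j : ℚ_[p]) * φ (y j) ^ k)
        = 2 * k * d * (φ (y l) ^ (k - 1) * ∑ j, (A l j : ℚ_[p]) * φ (y j) ^ k) := by ring
      _ = 0 := by rw [h0, mul_zero]

end Pool.Agent.KS6_15.HP
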